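import Pool.Agent.H1.PN.Abl

/-!
# H1-P2-AB: partial sums at a real exponent and their limit

`ps f β N = ∑_{n ≤ N} f n n^(-β)`, `Lm f β` the limit. If `|∑_{n ≤ N} f n| ≤ Q N^(1-δ)` and `β > 1 - δ` then `|ps f β N - Lm f β| ≤ (2 + β / θ) Q N^(-θ)`, `θ = β + δ - 1`.
`lm_cont`: `Lm f` is continuous.
-/

set_option autoImplicit false

noncomputable section

namespace H1.P2

open Finset Filter Topology H1.PN

/-- partial sums at the exponent `β` -/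
def ps (f : ℕ → ℝ) (β : ℝ) (N : ℕ) : ℝ := ∑ n ∈ Ioc 0 N, f n * (n : ℝ) ^ (-β)

/-- the limit -/
def Lm (f : ℕ → ℝ) (β : ℝ) : ℝ := limUnder atTop (ps f β)

/-- the power saving bound for the partial sums -/
def Sv (f : ℕ → ℝ) (Q δ : ℝ) : Prop := ∀ n : ℕ, 1 ≤ n → |∑ k ∈ Ioc 0 n, f k| ≤ Q * (n : ℝ) ^ (1 - δ)

theorem gd {β : ℝ} (hβ : 0 ≤ β) {n : ℕ} (hn : 1 ≤ n) :
    0 ≤ (n : ℝ) ^ (-β) - ((n : ℝ) + 1) ^ (-β) ∧
      (n : ℝ) ^ (-β) - ((n : ℝ) + 1) ^ (-β) ≤ β * (n : ℝ) ^ (-β - 1) := by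
  have hn0 : (1 : ℝ) ≤ n := by exact_mod_cast hn
  have hnp : (0 : ℝ) < n := by linarith
  constructor
  · rw [sub_nonneg]
    exact Real.rpow_le_rpow_of_nonpos hnp (by linarith) (by linarith)
  · have e1 : ((n : ℝ) + 1) ^ (-β) = (n : ℝ) ^ (-β) * (1 + 1 / n) ^ (-β) := by
      rw [← Real.mul_rpow hnp.le (by positivity)]
      congr 1
      field_simp
    have e2 : 1 - β * (1 / n) ≤ (1 + 1 / (n : ℝ)) ^ (-β) := by
      have h0 : (0 : ℝ) < 1 + 1 / n := by positivity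
      rw [Real.rpow_def_of_pos h0]
      have h1 : Real.log (1 + 1 / n) ≤ 1 / n := by
        have := Real.log_le_sub_one_of_pos h0
        linarith
      have h2 := Real.add_one_le_exp (Real.log (1 + 1 / n) * -β)
      have h3 : β * Real.log (1 + 1 / n) ≤ β * (1 / n) := mul_le_mul_of_nonneg_left h1 hβ
      linarith
    have h4 : (n : ℝ) ^ (-β - 1) = (n : ℝ) ^ (-β) * (1 / n) := by
      rw [Real.rpow_sub hnp, Real.rpow_one]
      ring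
    have h5 : (0 : ℝ) < (n : ℝ) ^ (-β) := Real.rpow_pos_of_pos hnp _
    rw [e1, h4]
    nlinarith

theorem tl {f : ℕ → ℝ} {Q δ β θ : ℝ} (hQ : 0 ≤ Q) (hf : Sv f Q δ) (hβ : 0 ≤ β)
    (hθ : θ = β + δ - 1) (hθ0 : 0 < θ) {N M : ℕ} (hN : 1 ≤ N) (h : N ≤ M) :
    |ps f β M - ps f β N| ≤ (2 + β / θ) * Q * (N : ℝ) ^ (-θ) := by
  have hN0 : (1 : ℝ) ≤ N := by exact_mod_cast hN
  have hM0 : (1 : ℝ) ≤ M := by exact_mod_cast hN.trans h
  have hNM : (N : ℝ) ≤ M := by exact_mod_cast h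
  have hI : ∀ n : ℕ, Ioc 0 n = Icc 1 n := fun n => by
    ext x
    simp only [mem_Ioc, mem_Icc]
    omega
  have e0 : ps f β M - ps f β N = ∑ n ∈ Ioc N M, f n * (n : ℝ) ^ (-β) := by
    unfold ps
    rw [← Finset.sum_Ioc_consecutive _ (Nat.zero_le N) h]
    ring
  have e1 := abl (R := ℝ) f (fun n : ℕ => (n : ℝ) ^ (-β)) h
  beta_reduce at e1
  rw [e0, e1]
  have hS : ∀ n : ℕ, 1 ≤ n → |∑ k ∈ Icc 1 n, f k| ≤ Q * (n : ℝ) ^ (1 - δ) := fun n hn => by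
    rw [← hI]
    exact hf n hn
  have hb : ∀ n : ℕ, 1 ≤ n → |(∑ k ∈ Icc 1 n, f k) * ((n + 1 : ℕ) : ℝ) ^ (-β)| ≤
      Q * (n : ℝ) ^ (-θ) := by
    intro n hn
    have hn0 : (1 : ℝ) ≤ n := by exact_mod_cast hn
    have hnp : (0 : ℝ) < n := by linarith
    rw [abs_mul, abs_of_nonneg (a := ((n + 1 : ℕ) : ℝ) ^ (-β)) (Real.rpow_nonneg (by positivity) _)]
    calc |∑ k ∈ Icc 1 n, f k| * ((n + 1 : ℕ) : ℝ) ^ (-β) ≤ Q * (n : ℝ) ^ (1 - δ) * (n : ℝ) ^ (-β) := by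
          refine mul_le_mul (hS n hn) ?_ (Real.rpow_nonneg (by positivity) _) (by positivity)
          exact Real.rpow_le_rpow_of_nonpos hnp (by push_cast; linarith) (by linarith)
      _ = Q * (n : ℝ) ^ (-θ) := by
          rw [mul_assoc, ← Real.rpow_add hnp]
          congr 2
          rw [hθ]
          ring
  have h1 : |(∑ k ∈ Icc 1 M, f k) * ((M + 1 : ℕ) : ℝ) ^ (-β)| ≤ Q * (N : ℝ) ^ (-θ) := by
    refine (hb M (hN.trans h)).trans (mul_le_mul_of_nonneg_left ?_ hQ)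
    exact Real.rpow_le_rpow_of_nonpos (by linarith) hNM (by linarith)
  have h2 := hb N hN
  have h3 : |∑ n ∈ Ioc N M, (∑ k ∈ Icc 1 n, f k) * (((n + 1 : ℕ) : ℝ) ^ (-β) - (n : ℝ) ^ (-β))| ≤
      β / θ * Q * (N : ℝ) ^ (-θ) := by
    refine (abs_sum_le_sum_abs _ _).trans ?_
    calc ∑ n ∈ Ioc N M, |(∑ k ∈ Icc 1 n, f k) * (((n + 1 : ℕ) : ℝ) ^ (-β) - (n : ℝ) ^ (-β))|
        ≤ ∑ n ∈ Ioc N M, Q * β * (n : ℝ) ^ (-1 - θ) := by
          refine Finset.sum_le_sum fun n hn => ?_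
          have hn1 : 1 ≤ n := by
            have := (mem_Ioc.1 hn).1
            omega
          have hn0 : (1 : ℝ) ≤ n := by exact_mod_cast hn1
          have hnp : (0 : ℝ) < n := by linarith
          obtain ⟨g1, g2⟩ := gd hβ hn1
          rw [abs_mul]
          have h4 : |((n + 1 : ℕ) : ℝ) ^ (-β) - (n : ℝ) ^ (-β)| ≤ β * (n : ℝ) ^ (-β - 1) := by
            rw [abs_sub_comm, abs_of_nonneg (by push_cast; exact g1)]
            push_cast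
            exact g2
          calc |∑ k ∈ Icc 1 n, f k| * |((n + 1 : ℕ) : ℝ) ^ (-β) - (n : ℝ) ^ (-β)|
              ≤ (Q * (n : ℝ) ^ (1 - δ)) * (β * (n : ℝ) ^ (-β - 1)) :=
                mul_le_mul (hS n hn1) h4 (abs_nonneg _) (by positivity)
            _ = Q * β * ((n : ℝ) ^ (1 - δ) * (n : ℝ) ^ (-β - 1)) := by ring
            _ = Q * β * (n : ℝ) ^ (-1 - θ) := by
                rw [← Real.rpow_add hnp]
                congr 2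
                rw [hθ]
                ring
      _ = Q * β * ∑ n ∈ Ioc N M, (n : ℝ) ^ (-1 - θ) := by rw [Finset.mul_sum]
      _ ≤ Q * β * (((N : ℝ) ^ (-θ) - (M : ℝ) ^ (-θ)) / θ) :=
          mul_le_mul_of_nonneg_left (rp_sum hθ0 hN h) (by positivity)
      _ ≤ Q * β * ((N : ℝ) ^ (-θ) / θ) := by
          refine mul_le_mul_of_nonneg_left (div_le_div_of_nonneg_right ?_ hθ0.le) (by positivity)
          have : 0 ≤ (M : ℝ) ^ (-θ) := Real.rpow_nonneg (by linarith) _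
          linarith
      _ = β / θ * Q * (N : ℝ) ^ (-θ) := by ring
  have h4 := abs_sub (((∑ k ∈ Icc 1 M, f k) * ((M + 1 : ℕ) : ℝ) ^ (-β)) -
    (∑ k ∈ Icc 1 N, f k) * ((N + 1 : ℕ) : ℝ) ^ (-β))
    (∑ n ∈ Ioc N M, (∑ k ∈ Icc 1 n, f k) * (((n + 1 : ℕ) : ℝ) ^ (-β) - (n : ℝ) ^ (-β)))
  have h5 := abs_sub ((∑ k ∈ Icc 1 M, f k) * ((M + 1 : ℕ) : ℝ) ^ (-β))
    ((∑ k ∈ Icc 1 N, f k) * ((N + 1 : ℕ) : ℝ) ^ (-β))
  refine h4.trans ?_
  calc _ ≤ (Q * (N : ℝ) ^ (-θ) + Q * (N : ℝ) ^ (-θ)) + β / θ * Q * (N : ℝ) ^ (-θ) :=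
        add_le_add (h5.trans (add_le_add h1 h2)) h3
    _ = (2 + β / θ) * Q * (N : ℝ) ^ (-θ) := by ring

theorem rz {θ : ℝ} (hθ0 : 0 < θ) :
    Tendsto (fun N : ℕ => ((N : ℝ)) ^ (-θ)) atTop (𝓝 0) :=
  (tendsto_rpow_neg_atTop hθ0).comp tendsto_natCast_atTop_atTop

theorem lm_tend {f : ℕ → ℝ} {Q δ β : ℝ} (hQ : 0 ≤ Q) (hf : Sv f Q δ) (hβ : 0 ≤ β)
    (hθ0 : 1 - δ < β) : Tendsto (ps f β) atTop (𝓝 (Lm f β)) := by
  have hθ : 0 < β + δ - 1 := by linarith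
  have hc : CauchySeq (fun N : ℕ => ps f β (N + 1)) := by
    refine cauchySeq_of_le_tendsto_0' (fun N : ℕ => (2 + β / (β + δ - 1)) * Q * ((N + 1 : ℕ) : ℝ) ^ (-(β + δ - 1)))
      (fun n m hnm => ?_) ?_
    · rw [dist_comm, Real.dist_eq]
      exact tl hQ hf hβ rfl hθ (by omega) (by omega)
    · have h1 := ((tendsto_add_atTop_iff_nat 1).2 (rz hθ)).const_mul ((2 + β / (β + δ - 1)) * Q)
      rwa [mul_zero] at h1
  obtain ⟨l, hl⟩ := cauchySeq_tendsto_of_complete hc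
  have h2 : Tendsto (ps f β) atTop (𝓝 l) := (tendsto_add_atTop_iff_nat 1).1 hl
  unfold Lm
  rw [h2.limUnder_eq]
  exact h2

theorem lm_le {f : ℕ → ℝ} {Q δ β θ : ℝ} (hQ : 0 ≤ Q) (hf : Sv f Q δ) (hβ : 0 ≤ β)
    (hθ : θ = β + δ - 1) (hθ0 : 0 < θ) {N : ℕ} (hN : 1 ≤ N) :
    |ps f β N - Lm f β| ≤ (2 + β / θ) * Q * (N : ℝ) ^ (-θ) := by
  have h1 := lm_tend hQ hf hβ (by linarith)
  have h2 : Tendsto (fun M => |ps f β M - ps f β N|) atTop (𝓝 |Lm f β - ps f β N|) :=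
    (h1.sub_const _).abs
  rw [abs_sub_comm]
  refine le_of_tendsto h2 ?_
  filter_upwards [eventually_ge_atTop N] with M hM
  exact tl hQ hf hβ hθ hθ0 hN hM

theorem flz {z θ : ℝ} (hz : 1 ≤ z) (hθ0 : 0 ≤ θ) (hθ1 : θ ≤ 1) :
    (⌊z⌋₊ : ℝ) ^ (-θ) ≤ 2 * z ^ (-θ) := by
  have h1 : (1 : ℝ) ≤ ⌊z⌋₊ := by exact_mod_cast Nat.le_floor (by simpa using hz)
  have h2 := Nat.lt_floor_add_one z
  have h3 : z / 2 ≤ ⌊z⌋₊ := by linarith
  calc (⌊z⌋₊ : ℝ) ^ (-θ) ≤ (z / 2) ^ (-θ) :=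
        Real.rpow_le_rpow_of_nonpos (by linarith) h3 (by linarith)
    _ = z ^ (-θ) * 2 ^ θ := by
        rw [Real.div_rpow (by linarith) (by norm_num), Real.rpow_neg (by norm_num : (0 : ℝ) ≤ 2),
          div_inv_eq_mul]
    _ ≤ z ^ (-θ) * 2 := by
        refine mul_le_mul_of_nonneg_left ?_ (Real.rpow_nonneg (by linarith) _)
        calc (2 : ℝ) ^ θ ≤ 2 ^ (1 : ℝ) := Real.rpow_le_rpow_of_exponent_le (by norm_num) hθ1
          _ = 2 := Real.rpow_one 2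
    _ = 2 * z ^ (-θ) := by ring

theorem lm_z {f : ℕ → ℝ} {Q δ β θ : ℝ} (hQ : 0 ≤ Q) (hf : Sv f Q δ) (hβ : 0 ≤ β)
    (hθ : θ = β + δ - 1) (hθ0 : 0 < θ) (hθ1 : θ ≤ 1) {z : ℝ} (hz : 1 ≤ z) :
    |ps f β ⌊z⌋₊ - Lm f β| ≤ 2 * (2 + β / θ) * Q * z ^ (-θ) := by
  have h1 : 1 ≤ ⌊z⌋₊ := Nat.le_floor (by simpa using hz)
  refine (lm_le hQ hf hβ hθ hθ0 h1).trans ?_
  have h2 := flz hz hθ0.le hθ1
  have h3 : 0 ≤ (2 + β / θ) * Q := by positivity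
  calc (2 + β / θ) * Q * (⌊z⌋₊ : ℝ) ^ (-θ) ≤ (2 + β / θ) * Q * (2 * z ^ (-θ)) :=
        mul_le_mul_of_nonneg_left h2 h3
    _ = 2 * (2 + β / θ) * Q * z ^ (-θ) := by ring

theorem ps_one (f : ℕ → ℝ) (β : ℝ) : ps f β 1 = f 1 := by
  unfold ps
  have : Ioc 0 1 = ({1} : Finset ℕ) := by decide
  rw [this, Finset.sum_singleton, Nat.cast_one, Real.one_rpow, mul_one]

theorem lm_abs {f : ℕ → ℝ} {Q δ β θ : ℝ} (hQ : 0 ≤ Q) (hf : Sv f Q δ) (hβ : 0 ≤ β)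
    (hθ : θ = β + δ - 1) (hθ0 : 0 < θ) : |Lm f β| ≤ |f 1| + (2 + β / θ) * Q := by
  have h1 := lm_le hQ hf hβ hθ hθ0 (N := 1) le_rfl
  rw [ps_one, Nat.cast_one, Real.one_rpow, mul_one] at h1
  have h2 : |Lm f β| ≤ |f 1| + |f 1 - Lm f β| := by
    have h3 := abs_sub (f 1) (f 1 - Lm f β)
    rwa [show f 1 - (f 1 - Lm f β) = Lm f β by ring] at h3
  linarith

theorem lm_cont {f : ℕ → ℝ} {Q δ β₀ : ℝ} (hQ : 0 ≤ Q) (hf : Sv f Q δ) (hβ₀ : 0 ≤ β₀)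
    (h0 : 1 - δ < β₀) : ContinuousOn (Lm f) (Set.Icc β₀ 2) := by
  obtain ⟨θ, hθ⟩ : ∃ θ : ℝ, θ = β₀ + δ - 1 := ⟨_, rfl⟩
  have hθ0 : 0 < θ := by linarith
  have hu : TendstoUniformlyOn (fun N β => ps f β N) (Lm f) atTop (Set.Icc β₀ 2) := by
    rw [Metric.tendstoUniformlyOn_iff]
    intro ε hε
    have h1 : Tendsto (fun N : ℕ => (2 + 2 / θ) * Q * (N : ℝ) ^ (-θ)) atTop (𝓝 0) := by
      have h2 := (rz hθ0).const_mul ((2 + 2 / θ) * Q)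
      rwa [mul_zero] at h2
    filter_upwards [h1.eventually_lt_const hε, eventually_ge_atTop 1] with N hN hN1 β hβ
    rw [dist_comm, Real.dist_eq]
    have hβ0 : 0 ≤ β := hβ₀.trans hβ.1
    obtain ⟨θ', hθ'⟩ : ∃ θ' : ℝ, θ' = β + δ - 1 := ⟨_, rfl⟩
    have h3 : θ ≤ θ' := by linarith [hβ.1]
    have hN0 : (1 : ℝ) ≤ N := by exact_mod_cast hN1
    refine (lm_le hQ hf hβ0 hθ' (by linarith) hN1).trans_lt (lt_of_le_of_lt ?_ hN)
    refine mul_le_mul (mul_le_mul_of_nonneg_right ?_ hQ) ?_ (Real.rpow_nonneg (by linarith) _)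
      (by positivity)
    · have : β / θ' ≤ 2 / θ := div_le_div₀ (by norm_num) hβ.2 hθ0 h3
      linarith
    · exact Real.rpow_le_rpow_of_exponent_le hN0 (by linarith)
  refine hu.continuousOn (Frequently.of_forall fun N => ?_)
  unfold ps
  refine continuousOn_finsetSum _ fun n hn => ?_
  have hn0 : (0 : ℝ) < n := by exact_mod_cast (mem_Ioc.1 hn).1
  refine continuousOn_const.mul ?_
  exact (Real.continuous_const_rpow hn0.ne').comp_continuousOn continuousOn_id.neg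

end H1.P2
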