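import Pool.Agent.H1.P2.Tf
import Pool.Agent.H1.PN.Lw

/-!
# H1-P2-CN: the value at `1` and the values to the right of `1`

`lms`: `Lm (ar χ) σ = L(σ, χ)` for `σ > 1`. `lpos`: `ζ_K(σ) L(σ, χ) ≥ 1`. `upe`: `L(1, χ) ≤ C (N𝔣)^ε`. `rgt`: a lower bound at `1` gives a lower bound for `1 < σ ≤ 2`.
-/

set_option autoImplicit false

open scoped NumberField

noncomputable section

namespace H1.P2

open Finset Filter Topology H63.MA H1.PN H57.AN H57.SL H36.QA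

variable {K : Type} [Field K] [NumberField K]

theorem ps_re {χ : Ideal (𝓞 K) →*₀ ℂ} (h : Rl χ) (σ : ℝ) (N : ℕ) :
    ((ps (ar χ) σ N : ℝ) : ℂ) = ∑ n ∈ Icc 1 N, LSeries.term (lbf χ) (σ : ℂ) n := by
  have e : Ioc 0 N = Icc 1 N := by
    ext x
    simp only [mem_Ioc, mem_Icc]
    omega
  unfold ps
  rw [e, Complex.ofReal_sum]
  refine sum_congr rfl fun n hn => ?_
  have hn1 := (mem_Icc.1 hn).1
  rw [LSeries.term_of_ne_zero (by omega), Complex.ofReal_mul, ar_re h,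
    Complex.ofReal_cpow (Nat.cast_nonneg _), div_eq_mul_inv, ← Complex.cpow_neg]
  push_cast
  rfl

theorem ser_tend {f : ℕ → ℂ} {s : ℂ} (h : LSeriesSummable f s) :
    Tendsto (fun M : ℕ => ∑ n ∈ Icc 1 M, LSeries.term f s n) atTop (𝓝 (LSeries f s)) := by
  have ht : Tendsto (fun M : ℕ => ∑ n ∈ range (M + 1), LSeries.term f s n) atTop
      (𝓝 (LSeries f s)) :=
    (h.hasSum.tendsto_sum_nat).comp (tendsto_add_atTop_nat 1)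
  refine ht.congr fun M => ?_
  rw [sum_range_succ']
  rw [LSeries.term_zero, add_zero]
  rw [Finset.range_eq_Ico, Finset.sum_Ico_add' (fun n => LSeries.term f s n) 0 M 1]
  refine sum_congr ?_ fun _ _ => rfl
  ext x
  simp only [mem_Ico, mem_Icc]
  omega

theorem lms {χ : Ideal (𝓞 K) →*₀ ℂ} (h : Rl χ) {σ : ℝ} (hσ : 1 < σ) :
    ((Lm (ar χ) σ : ℝ) : ℂ) = LSeries (lbf χ) (σ : ℂ) := by
  have h1 : LSeriesSummable (lbf χ) (σ : ℂ) := by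
    have h2 := lb_sum (χ : Ideal (𝓞 K) → ℂ) (map_zero χ) h.le 0 (s := (σ : ℂ)) (by simpa using hσ)
    rwa [pw_zero] at h2
  have h2 := ser_tend h1
  have h3 : Tendsto (fun N : ℕ => ((ps (ar χ) σ N : ℝ) : ℂ)) atTop (𝓝 (LSeries (lbf χ) (σ : ℂ))) :=
    h2.congr fun N => (ps_re h σ N).symm
  have h4 : Tendsto (ps (ar χ) σ) atTop (𝓝 (LSeries (lbf χ) (σ : ℂ)).re) := by
    have h5 := (Complex.continuous_re.tendsto _).comp h3
    refine h5.congr fun N => ?_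
    simp
  have h5 : Lm (ar χ) σ = (LSeries (lbf χ) (σ : ℂ)).re := by
    unfold Lm
    exact h4.limUnder_eq
  have h6 : Tendsto (fun N : ℕ => ((ps (ar χ) σ N : ℝ) : ℂ)) atTop
      (𝓝 (((LSeries (lbf χ) (σ : ℂ)).re : ℝ) : ℂ)) :=
    (Complex.continuous_ofReal.tendsto _).comp h4
  rw [h5]
  exact tendsto_nhds_unique h6 h3

theorem lmn {χ : Ideal (𝓞 K) →*₀ ℂ} (h : Rl χ) {σ : ℝ} (hσ : 1 < σ) :
    ‖LSeries (lbf χ) (σ : ℂ)‖ = |Lm (ar χ) σ| := by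
  rw [← lms h hσ, Complex.norm_real, Real.norm_eq_abs]

/-- `ζ_K(σ) L(σ, χ) ≥ 1` -/
theorem lpos {χ : Ideal (𝓞 K) →*₀ ℂ} (h : Rl χ) {σ : ℝ} (hσ : 1 < σ) :
    1 ≤ Lm (eK K) σ * Lm (ar χ) σ := by
  have hs : ∀ {φ : Ideal (𝓞 K) →*₀ ℂ}, Rl φ → LSeriesSummable (lbf φ) (σ : ℂ) := by
    intro φ hφ
    have h2 := lb_sum (φ : Ideal (𝓞 K) → ℂ) (map_zero φ) hφ.le 0 (s := (σ : ℂ)) (by simpa using hσ)
    rwa [pw_zero] at h2
  have h1 := hs (triv_rl (K := K))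
  have h2 := hs h
  have h3 := LSeries_convolution' h1 h2
  have h4 : LSeriesSummable (LSeries.convolution (lbf (lbd_triv K)) (lbf χ)) (σ : ℂ) :=
    h1.convolution h2
  have h5 := ser_tend h4
  rw [h3, ← lms triv_rl hσ, ← lms h hσ, ← Complex.ofReal_mul] at h5
  have h6 := (Complex.continuous_re.tendsto _).comp h5
  rw [Complex.ofReal_re] at h6
  refine ge_of_tendsto h6 ?_
  filter_upwards [eventually_ge_atTop 1] with M hM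
  rw [Function.comp_apply, Complex.re_sum]
  have hterm : ∀ n ∈ Icc 1 M, (LSeries.term (LSeries.convolution (lbf (lbd_triv K)) (lbf χ))
      (σ : ℂ) n).re = (ar (lbd_triv K) * ar χ) n * (n : ℝ) ^ (-σ) := by
    intro n hn
    have hn1 := (mem_Icc.1 hn).1
    have e1 : LSeries.convolution (lbf (lbd_triv K)) (lbf χ) n =
        (((ar (lbd_triv K) * ar χ) n : ℝ) : ℂ) := by
      rw [LSeries.convolution_def, ArithmeticFunction.mul_apply, Complex.ofReal_sum]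
      refine sum_congr rfl fun p _ => ?_
      rw [Complex.ofReal_mul, ar_re triv_rl, ar_re h]
    have e2 : (n : ℂ) ^ (-(σ : ℂ)) = (((n : ℝ) ^ (-σ) : ℝ) : ℂ) := by
      rw [Complex.ofReal_cpow (Nat.cast_nonneg _)]
      push_cast
      rfl
    rw [LSeries.term_of_ne_zero (by omega), e1, div_eq_mul_inv, ← Complex.cpow_neg, e2,
      ← Complex.ofReal_mul, Complex.ofReal_re]
  rw [sum_congr rfl hterm]
  have h7 : (ar (lbd_triv K) * ar χ) 1 * ((1 : ℕ) : ℝ) ^ (-σ) ≤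
      ∑ n ∈ Icc 1 M, (ar (lbd_triv K) * ar χ) n * (n : ℝ) ^ (-σ) :=
    single_le_sum (f := fun n : ℕ => (ar (lbd_triv K) * ar χ) n * (n : ℝ) ^ (-σ))
      (fun n _ => mul_nonneg (pos2 h n) (Real.rpow_nonneg (Nat.cast_nonneg _) _))
      (mem_Icc.2 ⟨le_rfl, hM⟩)
  rwa [mul_one' _ _ (ar_one _) (ar_one _), Nat.cast_one, Real.one_rpow, one_mul] at h7

variable (K) in
theorem zub1 : ∃ C : ℝ, 1 ≤ C ∧ ∀ σ : ℝ, 1 < σ → σ ≤ 2 → 0 < Lm (eK K) σ ∧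
    Lm (eK K) σ ≤ C / (σ - 1) := by
  obtain ⟨c, C, hc, h⟩ := lser_one K
  refine ⟨max C 1, le_max_right _ _, fun σ hσ hσ2 => ?_⟩
  have hσ0 : 0 < σ - 1 := by linarith
  obtain ⟨h1, h2⟩ := h σ hσ hσ2
  have e1 : Lser (fun I : Ideal (𝓞 K) => if I = ⊥ then 0 else 1) σ =
      ((Lm (eK K) σ : ℝ) : ℂ) := by
    rw [show (((Lm (eK K) σ : ℝ) : ℂ)) = LSeries (lbf (lbd_triv K)) (σ : ℂ) from lms triv_rl hσ]
    exact lbd_lser_eq (lbd_triv K : Ideal (𝓞 K) → ℂ) (map_zero (lbd_triv K)) triv_rl.le hσ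
  rw [e1, Complex.norm_real, Real.norm_eq_abs] at h1 h2
  have h3 := lpos (K := K) triv_rl hσ
  have h4 : 0 < Lm (eK K) σ := by
    by_contra h5
    push Not at h5
    have h6 : 0 ≤ Lm (eK K) σ := by
      refine ge_of_tendsto (f := ps (eK K) σ) (x := atTop) ?_ ?_
      · have h7 : LSeriesSummable (lbf (lbd_triv K)) (σ : ℂ) := by
          have h2 := lb_sum (lbd_triv K : Ideal (𝓞 K) → ℂ) (map_zero (lbd_triv K)) triv_rl.le 0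
            (s := (σ : ℂ)) (by simpa using hσ)
          rwa [pw_zero] at h2
        have h8 := ser_tend h7
        rw [← lms triv_rl hσ] at h8
        have h9 := (Complex.continuous_re.tendsto _).comp h8
        rw [Complex.ofReal_re] at h9
        refine h9.congr fun N => ?_
        rw [Function.comp_apply, ← ps_re triv_rl, Complex.ofReal_re]
        rfl
      · refine Eventually.of_forall fun N => ?_
        unfold ps
        exact sum_nonneg fun n _ => mul_nonneg (ek_nonneg K n) (Real.rpow_nonneg (Nat.cast_nonneg _) _)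
    have h7 : Lm (eK K) σ = 0 := le_antisymm h5 h6
    have h8 : Lm (ar (lbd_triv K)) σ = 0 := h7
    rw [h7, zero_mul] at h3
    linarith
  refine ⟨h4, ?_⟩
  rw [abs_of_pos h4] at h2
  exact h2.trans (div_le_div_of_nonneg_right (le_max_left _ _) hσ0.le)

/-- `L(σ, χ) ≥ c (σ - 1)` -/
theorem llow {C : ℝ} (hC : 1 ≤ C) (hz : ∀ σ : ℝ, 1 < σ → σ ≤ 2 → 0 < Lm (eK K) σ ∧
    Lm (eK K) σ ≤ C / (σ - 1)) {χ : Ideal (𝓞 K) →*₀ ℂ} (h : Rl χ) {σ : ℝ} (hσ : 1 < σ)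
    (hσ2 : σ ≤ 2) : (σ - 1) / C ≤ Lm (ar χ) σ := by
  obtain ⟨h1, h2⟩ := hz σ hσ hσ2
  have h3 := lpos h hσ
  have hσ0 : 0 < σ - 1 := by linarith
  have h4 : 0 < Lm (ar χ) σ := by
    by_contra h5
    push Not at h5
    nlinarith
  have h5 : 1 ≤ C / (σ - 1) * Lm (ar χ) σ := h3.trans (mul_le_mul_of_nonneg_right h2 h4.le)
  rw [div_mul_eq_mul_div, le_div_iff₀ hσ0, one_mul] at h5
  rw [div_le_iff₀ (by linarith)]
  linarith

/-- the right limit -/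
theorem lmt {f : ℕ → ℝ} {Q δ : ℝ} (hQ : 0 ≤ Q) (hδ : 0 < δ) (hδ1 : δ ≤ 1) (hf : Sv f Q δ) :
    Tendsto (Lm f) (𝓝[>] 1) (𝓝 (Lm f 1)) := by
  have h1 := lm_cont hQ hf (β₀ := 1 - δ / 2) (by linarith) (by linarith)
  have h2 : ContinuousWithinAt (Lm f) (Set.Icc (1 - δ / 2) 2) 1 := h1 1 ⟨by linarith, by norm_num⟩
  have h3 : Tendsto (Lm f) (𝓝[Set.Icc (1 - δ / 2) 2] 1) (𝓝 (Lm f 1)) := h2
  refine h3.mono_left ?_
  have h4 : 𝓝[>] (1 : ℝ) = 𝓝[Set.Ioo 1 2] 1 := (nhdsWithin_Ioo_eq_nhdsGT (by norm_num)).symm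
  rw [h4]
  exact nhdsWithin_mono _ fun x hx => ⟨by linarith [hx.1], hx.2.le⟩

theorem lm_lim {f : ℕ → ℝ} {Q δ : ℝ} (hQ : 0 ≤ Q) (hδ : 0 < δ) (hδ1 : δ ≤ 1) (hf : Sv f Q δ)
    {P : ℝ → Prop} (hP : IsClosed {x | P x}) (h : ∀ σ : ℝ, 1 < σ → σ ≤ 2 → P (Lm f σ)) :
    P (Lm f 1) := by
  have h1 := lmt hQ hδ hδ1 hf
  refine hP.mem_of_tendsto h1 ?_
  have h2 : Set.Ioo (1 : ℝ) 2 ∈ 𝓝[>] (1 : ℝ) := Ioo_mem_nhdsGT (by norm_num)
  filter_upwards [h2] with σ hσ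
  exact h σ hσ.1 hσ.2.le

/-- powers of the logarithm of the conductor -/
theorem elb (k : ℕ) {ε : ℝ} (hε : 0 < ε) : ∃ C : ℝ, 1 ≤ C ∧ ∀ 𝔣 : Ideal (𝓞 K), 𝔣 ≠ ⊥ →
    el K 𝔣 0 ^ k ≤ C * (Ideal.absNorm 𝔣 : ℝ) ^ ε := by
  obtain ⟨a, ha⟩ : ∃ a : ℝ, a = 2 + Real.log (dd K) + Real.log (2 + |0|) := ⟨_, rfl⟩
  have ha0 : 1 ≤ a := by
    have h1 : 0 ≤ Real.log (dd K) := Real.log_nonneg (one_le_dd K)
    have h2 : 0 ≤ Real.log (2 + |(0 : ℝ)|) := Real.log_nonneg (by simp)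
    rw [ha]
    linarith
  obtain ⟨η, hη⟩ : ∃ η : ℝ, η = ε / (k + 1) := ⟨_, rfl⟩
  have hη0 : 0 < η := by rw [hη]; positivity
  refine ⟨(a * (1 + 1 / η)) ^ k, one_le_pow₀ (one_le_mul_of_one_le_of_one_le ha0 ?_), fun 𝔣 h𝔣 => ?_⟩
  · have : 0 ≤ 1 / η := by positivity
    linarith
  have hN := nf_one h𝔣
  have h1 : el K 𝔣 0 = a + Real.log (Ideal.absNorm 𝔣) := by
    unfold el
    rw [ha]
    ring
  have h2 : el K 𝔣 0 ≤ a * (1 + 1 / η) * (Ideal.absNorm 𝔣 : ℝ) ^ η := by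
    rw [h1]
    have h3 := log_rp hη0 hN
    have h4 : 0 ≤ Real.log (Ideal.absNorm 𝔣 : ℝ) := Real.log_nonneg hN
    calc a + Real.log (Ideal.absNorm 𝔣) ≤ a * (1 + Real.log (Ideal.absNorm 𝔣)) := by nlinarith
      _ ≤ a * ((1 + 1 / η) * (Ideal.absNorm 𝔣 : ℝ) ^ η) :=
          mul_le_mul_of_nonneg_left h3 (by linarith)
      _ = _ := by ring
  have h3 : 0 ≤ el K 𝔣 0 := by
    rw [h1]
    have h4 : 0 ≤ Real.log (Ideal.absNorm 𝔣 : ℝ) := Real.log_nonneg hN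
    linarith
  calc el K 𝔣 0 ^ k ≤ (a * (1 + 1 / η) * (Ideal.absNorm 𝔣 : ℝ) ^ η) ^ k := pow_le_pow_left₀ h3 h2 k
    _ = (a * (1 + 1 / η)) ^ k * (Ideal.absNorm 𝔣 : ℝ) ^ (η * k) := by
        rw [mul_pow, ← Real.rpow_natCast ((Ideal.absNorm 𝔣 : ℝ) ^ η), ← Real.rpow_mul (by linarith)]
    _ ≤ (a * (1 + 1 / η)) ^ k * (Ideal.absNorm 𝔣 : ℝ) ^ ε := by
        refine mul_le_mul_of_nonneg_left (Real.rpow_le_rpow_of_exponent_le hN ?_) (by positivity)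
        rw [hη, div_mul_eq_mul_div, div_le_iff₀ (by positivity)]
        nlinarith

/-- upper bounds -/
theorem upe {n : ℕ} (hn : 0 < n) (hK : TC K n) (k : ℕ) {ε : ℝ} (hε : 0 < ε) :
    ∃ C : ℝ, 1 ≤ C ∧ ∀ 𝔣 : Ideal (𝓞 K), 𝔣 ≠ ⊥ → ∀ χ : RC K 𝔣, χ.Non → ∀ σ : ℝ, 1 < σ → σ ≤ 2 →
      ‖LSeries (pw k (lbf χ.χ)) (σ : ℂ)‖ ≤ C * (Ideal.absNorm 𝔣 : ℝ) ^ ε := by
  obtain ⟨A, hA⟩ := up n hn
  obtain ⟨C, hC, h⟩ := hA k
  obtain ⟨C', hC', h'⟩ := elb (K := K) (k + A) hε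
  refine ⟨C * C', one_le_mul_of_one_le_of_one_le hC hC', fun 𝔣 h𝔣 χ hχ σ hσ hσ2 => ?_⟩
  have h1 := h K hK 𝔣 h𝔣 χ hχ (σ : ℂ) (by simpa using hσ) (by simpa using hσ2)
  rw [Complex.ofReal_im] at h1
  refine h1.trans ?_
  rw [mul_assoc]
  exact mul_le_mul_of_nonneg_left (h' 𝔣 h𝔣) (by linarith)

/-- from `1` to the right -/
theorem rgt {n : ℕ} (hn : 0 < n) (hK : TC K n) {κ C θ : ℝ} {A : ℕ} (hcx : Cx K κ C θ A) {ε : ℝ}
    (hε : 0 < ε) {c : ℝ} (hc : 0 < c) : ∃ c' : ℝ, 0 < c' ∧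
    ∀ 𝔣 : Ideal (𝓞 K), 𝔣 ≠ ⊥ → ∀ χ : RC K 𝔣, χ.Non → Rl χ.χ →
      c * (Ideal.absNorm 𝔣 : ℝ) ^ (-ε) ≤ Lm (ar χ.χ) 1 → ∀ σ : ℝ, 1 < σ → σ ≤ 2 →
      c' * (Ideal.absNorm 𝔣 : ℝ) ^ (-(2 * ε)) ≤ ‖LSeries (lbf χ.χ) (σ : ℂ)‖ := by
  obtain ⟨D, hD, hup⟩ := upe hn hK 1 hε
  obtain ⟨Z, hZ, hz⟩ := zub1 K
  refine ⟨min (c / 2) (c / (2 * D * Z)), lt_min (by positivity) (by positivity),
    fun 𝔣 h𝔣 χ hχ hr h1 σ hσ hσ2 => ?_⟩
  have hN := nf_one h𝔣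
  have hN0 : (0 : ℝ) < Ideal.absNorm 𝔣 := by linarith
  obtain ⟨N, hNd⟩ : ∃ N : ℝ, N = (Ideal.absNorm 𝔣 : ℝ) ^ ε := ⟨_, rfl⟩
  have hN1 : 1 ≤ N := by rw [hNd]; exact Real.one_le_rpow hN hε.le
  have e1 : (Ideal.absNorm 𝔣 : ℝ) ^ (-ε) = N⁻¹ := by rw [hNd, Real.rpow_neg hN0.le]
  have e2 : (Ideal.absNorm 𝔣 : ℝ) ^ (-(2 * ε)) = N⁻¹ * N⁻¹ := by
    rw [← e1, ← Real.rpow_add hN0]
    congr 1
    ring
  rw [e1] at h1
  rw [e2, lmn hr hσ]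
  have hsv := hcx.sv 𝔣 h𝔣 χ hχ hr
  have hQ : 0 ≤ C * (Ideal.absNorm 𝔣 : ℝ) ^ A := by
    have := hcx.c1
    positivity
  -- the derivative
  have hmv : |Lm (ar χ.χ) σ - Lm (ar χ.χ) 1| ≤ D * N * (σ - 1) := by
    have h2 : ∀ a : ℝ, 1 < a → a ≤ σ → |Lm (ar χ.χ) σ - Lm (ar χ.χ) a| ≤ D * N * (σ - 1) := by
      intro a ha haσ
      have h3 := ser_mv (χ.χ : Ideal (𝓞 K) → ℂ) (map_zero χ.χ) hr.le (t := 0) (D := D * N) ha haσ
        (fun x hx hx2 => by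
          rw [Complex.ofReal_zero, zero_mul, add_zero, hNd]
          exact hup 𝔣 h𝔣 χ hχ x (by linarith) (by linarith))
      rw [Complex.ofReal_zero, zero_mul, add_zero, add_zero, ← lms hr hσ, ← lms hr ha,
        ← Complex.ofReal_sub, Complex.norm_real, Real.norm_eq_abs] at h3
      refine h3.trans (mul_le_mul_of_nonneg_left (by linarith) (by positivity))
    have h3 := lmt hQ (by linarith [hcx.t0]) (by linarith [hcx.t1]) hsv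
    have h4 : Tendsto (fun a => |Lm (ar χ.χ) σ - Lm (ar χ.χ) a|) (𝓝[>] 1)
        (𝓝 |Lm (ar χ.χ) σ - Lm (ar χ.χ) 1|) := (tendsto_const_nhds.sub h3).abs
    refine le_of_tendsto h4 ?_
    have h5 : Set.Ioo (1 : ℝ) σ ∈ 𝓝[>] (1 : ℝ) := Ioo_mem_nhdsGT hσ
    filter_upwards [h5] with a ha
    exact h2 a ha.1 ha.2.le
  have hpos := llow hZ hz hr hσ hσ2
  have hσ0 : 0 < σ - 1 := by linarith
  have hL0 : 0 < Lm (ar χ.χ) σ := lt_of_lt_of_le (by positivity) hpos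
  rw [abs_of_pos hL0]
  have hNi : 0 < N⁻¹ := by positivity
  have hNi1 : N⁻¹ ≤ 1 := inv_le_one_of_one_le₀ hN1
  have hNN : N⁻¹ * N⁻¹ ≤ N⁻¹ := mul_le_of_le_one_left hNi.le hNi1
  rcases le_or_gt (D * N * (σ - 1)) (c * N⁻¹ / 2) with hcase | hcase
  · have h3 := (abs_le.1 hmv).1
    calc min (c / 2) (c / (2 * D * Z)) * (N⁻¹ * N⁻¹) ≤ c / 2 * N⁻¹ :=
          mul_le_mul (min_le_left _ _) hNN (by positivity) (by positivity)
      _ = c * N⁻¹ / 2 := by ring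
      _ ≤ Lm (ar χ.χ) σ := by linarith
  · have h3 : c * N⁻¹ / 2 / (D * N) < σ - 1 := by
      rw [div_lt_iff₀ (by positivity)]
      linarith
    calc min (c / 2) (c / (2 * D * Z)) * (N⁻¹ * N⁻¹) ≤ c / (2 * D * Z) * (N⁻¹ * N⁻¹) :=
          mul_le_mul_of_nonneg_right (min_le_right _ _) (by positivity)
      _ = c * N⁻¹ / 2 / (D * N) / Z := by
          field_simp
      _ ≤ (σ - 1) / Z := div_le_div_of_nonneg_right h3.le (by linarith)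
      _ ≤ Lm (ar χ.χ) σ := hpos

end H1.P2
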