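import Mathlib

/-!
# H1-P2-HY: the hyperbola method with a main term

`Sz a z = ∑_{n ≤ z} a n`. `a` with `Sz a z = λ z^ω + a₀ + O(E z^(-θ))`, `b` with `Sz b z = b₀ + O(Q z^(-θ))`, `∑_{n ≤ z} b n n^(-ω) = b₁ + O(Q z^(-θ))`: then
`Sz (a * b) z = λ b₁ z^ω + a₀ b₀ + O(.. z^(-θ²/8))`.
-/

set_option autoImplicit false

noncomputable section

namespace H1.P2

open Finset

/-- the sum up to `z` -/
def Sz (a : ArithmeticFunction ℝ) (z : ℝ) : ℝ := ∑ n ∈ Ioc 0 ⌊z⌋₊, a n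

theorem swp (a b : ArithmeticFunction ℝ) {N Y : ℕ} (h : Y ≤ N) :
    ∑ m ∈ Ioc 0 N, b m * ∑ n ∈ Ioc 0 (N / m), a n =
      ∑ m ∈ Ioc 0 Y, b m * ∑ n ∈ Ioc 0 (N / m), a n +
        ∑ n ∈ Ioc 0 N, a n * ∑ m ∈ Ioc Y (N / n), b m := by
  rw [← Finset.sum_Ioc_consecutive _ (Nat.zero_le Y) h]
  congr 1
  simp_rw [Finset.mul_sum]
  rw [Finset.sum_comm' (s' := fun n => Ioc Y (N / n)) (t' := Ioc 0 N)]
  · refine Finset.sum_congr rfl fun n _ => Finset.sum_congr rfl fun m _ => mul_comm _ _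
  · intro m n
    simp only [mem_Ioc]
    constructor
    · rintro ⟨⟨h1, h2⟩, h3, h4⟩
      have hm : 0 < m := by omega
      have h5 : n * m ≤ N := (Nat.le_div_iff_mul_le hm).1 h4
      have h6 : m ≤ N / n := (Nat.le_div_iff_mul_le h3).2 (by rwa [mul_comm])
      refine ⟨⟨h1, h6⟩, h3, ?_⟩
      calc n ≤ n * m := Nat.le_mul_of_pos_right n hm
        _ ≤ N := h5
    · rintro ⟨⟨h1, h2⟩, h3, h4⟩
      have hm : 0 < m := by omega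
      have h5 : m * n ≤ N := (Nat.le_div_iff_mul_le h3).1 h2
      refine ⟨⟨h1, ?_⟩, h3, (Nat.le_div_iff_mul_le hm).2 (by rwa [mul_comm])⟩
      calc m ≤ m * n := Nat.le_mul_of_pos_right m h3
        _ ≤ N := h5

theorem hyp {a b : ArithmeticFunction ℝ} {l ω a₀ b₀ b₁ E Q D θ η : ℝ} (hθ0 : 0 < θ) (hθ1 : θ ≤ 1)
    (hω0 : 0 ≤ ω) (hω : ω ≤ θ ^ 2 / 8) (hη : η ≤ θ ^ 2 / 8) (hE : 0 ≤ E)
    (hQ : 0 ≤ Q) (hD : 0 ≤ D)
    (hA : ∀ z : ℝ, 1 ≤ z → |Sz a z - l * z ^ ω - a₀| ≤ E * z ^ (-θ))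
    (hB0 : ∀ z : ℝ, 1 ≤ z → |Sz b z - b₀| ≤ Q * z ^ (-θ))
    (hB1 : ∀ z : ℝ, 1 ≤ z → |∑ n ∈ Ioc 0 ⌊z⌋₊, b n * (n : ℝ) ^ (-ω) - b₁| ≤ Q * z ^ (-θ))
    (hDA : ∀ z : ℝ, 1 ≤ z → ∑ n ∈ Ioc 0 ⌊z⌋₊, |a n| ≤ D * z ^ η)
    (hDB : ∀ z : ℝ, 1 ≤ z → ∑ n ∈ Ioc 0 ⌊z⌋₊, |b n| ≤ D * z ^ (2 : ℝ)) :
    ∀ z : ℝ, 1 ≤ z → |Sz (a * b) z - l * b₁ * z ^ ω - a₀ * b₀| ≤
      (|l| * Q + |a₀| * Q + E * D + 2 * Q * D) * z ^ (-(θ ^ 2 / 8)) := by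
  intro z hz
  have hz0 : (0 : ℝ) < z := by linarith
  obtain ⟨Y, hY⟩ : ∃ Y : ℝ, Y = z ^ (θ / 4) := ⟨_, rfl⟩
  have hY1 : 1 ≤ Y := by
    rw [hY]
    exact Real.one_le_rpow hz (by positivity)
  have hYz : Y ≤ z := by
    rw [hY]
    calc z ^ (θ / 4) ≤ z ^ (1 : ℝ) := Real.rpow_le_rpow_of_exponent_le hz (by linarith)
      _ = z := Real.rpow_one z
  have hY0 : 0 < Y := by linarith
  have hYθ : Y ^ (-θ) = z ^ (-(θ ^ 2 / 4)) := by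
    rw [hY, ← Real.rpow_mul hz0.le]
    congr 1
    ring
  have hfl : ⌊Y⌋₊ ≤ ⌊z⌋₊ := Nat.floor_le_floor hYz
  have e1 : Sz (a * b) z = ∑ m ∈ Ioc 0 ⌊Y⌋₊, b m * Sz a (z / m) +
      ∑ n ∈ Ioc 0 ⌊z⌋₊, a n * ∑ m ∈ Ioc ⌊Y⌋₊ (⌊z⌋₊ / n), b m := by
    have h1 : Sz (a * b) z = ∑ m ∈ Ioc 0 ⌊z⌋₊, b m * ∑ n ∈ Ioc 0 (⌊z⌋₊ / m), a n := by
      unfold Sz
      rw [mul_comm, ArithmeticFunction.sum_Ioc_mul_eq_sum_sum]
    rw [h1, swp a b hfl]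
    congr 1
    refine Finset.sum_congr rfl fun m _ => ?_
    unfold Sz
    rw [Nat.floor_div_natCast]
  -- the second sum
  have hS2 : |∑ n ∈ Ioc 0 ⌊z⌋₊, a n * ∑ m ∈ Ioc ⌊Y⌋₊ (⌊z⌋₊ / n), b m| ≤
      2 * Q * Y ^ (-θ) * (D * z ^ η) := by
    have hin : ∀ n ∈ Ioc 0 ⌊z⌋₊, |∑ m ∈ Ioc ⌊Y⌋₊ (⌊z⌋₊ / n), b m| ≤ 2 * Q * Y ^ (-θ) := by
      intro n hn
      obtain ⟨hn1, hn2⟩ := mem_Ioc.1 hn
      have hn0 : (0 : ℝ) < n := by exact_mod_cast hn1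
      rcases Nat.lt_or_ge ⌊Y⌋₊ (⌊z⌋₊ / n) with hc | hc
      · have hzn : Y ≤ z / n := by
          have h2 : (⌊Y⌋₊ : ℝ) + 1 ≤ ((⌊z⌋₊ / n : ℕ) : ℝ) := by exact_mod_cast hc
          have h3 : ((⌊z⌋₊ / n : ℕ) : ℝ) ≤ z / n := by
            rw [← Nat.floor_div_natCast]
            exact Nat.floor_le (by positivity)
          have h4 := Nat.lt_floor_add_one Y
          linarith
        have h5 : ∑ m ∈ Ioc ⌊Y⌋₊ (⌊z⌋₊ / n), b m = (Sz b (z / n) - b₀) - (Sz b Y - b₀) := by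
          unfold Sz
          rw [Nat.floor_div_natCast, ← Finset.sum_Ioc_consecutive _ (Nat.zero_le _) hc.le]
          ring
        rw [h5]
        refine (abs_sub _ _).trans ?_
        have h6 := hB0 (z / n) (hY1.trans hzn)
        have h7 := hB0 Y hY1
        have h8 : (z / n) ^ (-θ) ≤ Y ^ (-θ) :=
          Real.rpow_le_rpow_of_nonpos hY0 hzn (by linarith)
        have h9 : Q * (z / n) ^ (-θ) ≤ Q * Y ^ (-θ) := mul_le_mul_of_nonneg_left h8 hQ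
        linarith
      · rw [Ioc_eq_empty_of_le hc, sum_empty, abs_zero]
        have := Real.rpow_nonneg hY0.le (-θ)
        positivity
    refine (abs_sum_le_sum_abs _ _).trans ?_
    calc ∑ n ∈ Ioc 0 ⌊z⌋₊, |a n * ∑ m ∈ Ioc ⌊Y⌋₊ (⌊z⌋₊ / n), b m|
        ≤ ∑ n ∈ Ioc 0 ⌊z⌋₊, |a n| * (2 * Q * Y ^ (-θ)) := by
          refine Finset.sum_le_sum fun n hn => ?_
          rw [abs_mul]
          exact mul_le_mul_of_nonneg_left (hin n hn) (abs_nonneg _)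
      _ = 2 * Q * Y ^ (-θ) * ∑ n ∈ Ioc 0 ⌊z⌋₊, |a n| := by
          rw [← Finset.sum_mul, mul_comm]
      _ ≤ 2 * Q * Y ^ (-θ) * (D * z ^ η) := by
          refine mul_le_mul_of_nonneg_left (hDA z hz) ?_
          have := Real.rpow_nonneg hY0.le (-θ)
          positivity
  -- the first sum
  have hS1 : |∑ m ∈ Ioc 0 ⌊Y⌋₊, b m * Sz a (z / m) - l * b₁ * z ^ ω - a₀ * b₀| ≤
      |l| * z ^ ω * (Q * Y ^ (-θ)) + |a₀| * (Q * Y ^ (-θ)) +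
        E * (z / Y) ^ (-θ) * (D * Y ^ (2 : ℝ)) := by
    have h1 : ∀ m ∈ Ioc 0 ⌊Y⌋₊, b m * Sz a (z / m) = l * z ^ ω * (b m * (m : ℝ) ^ (-ω)) +
        a₀ * b m + b m * (Sz a (z / m) - l * (z / m) ^ ω - a₀) := by
      intro m hm
      have hm0 : (0 : ℝ) < m := by exact_mod_cast (mem_Ioc.1 hm).1
      rw [Real.div_rpow hz0.le hm0.le, Real.rpow_neg hm0.le]
      field_simp
      ring
    rw [Finset.sum_congr rfl h1, Finset.sum_add_distrib, Finset.sum_add_distrib, ← Finset.mul_sum,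
      ← Finset.mul_sum]
    have e2 : l * z ^ ω * ∑ m ∈ Ioc 0 ⌊Y⌋₊, b m * (m : ℝ) ^ (-ω) + a₀ * ∑ m ∈ Ioc 0 ⌊Y⌋₊, b m +
        ∑ m ∈ Ioc 0 ⌊Y⌋₊, b m * (Sz a (z / m) - l * (z / m) ^ ω - a₀) - l * b₁ * z ^ ω -
          a₀ * b₀ = l * z ^ ω * (∑ m ∈ Ioc 0 ⌊Y⌋₊, b m * (m : ℝ) ^ (-ω) - b₁) +
            a₀ * (Sz b Y - b₀) +
            ∑ m ∈ Ioc 0 ⌊Y⌋₊, b m * (Sz a (z / m) - l * (z / m) ^ ω - a₀) := by
      unfold Sz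
      ring
    rw [e2]
    refine (abs_add_three _ _ _).trans (add_le_add (add_le_add ?_ ?_) ?_)
    · rw [abs_mul, abs_mul, abs_of_nonneg (Real.rpow_nonneg hz0.le ω)]
      exact mul_le_mul_of_nonneg_left (hB1 Y hY1) (by positivity)
    · rw [abs_mul]
      exact mul_le_mul_of_nonneg_left (hB0 Y hY1) (abs_nonneg _)
    · refine (abs_sum_le_sum_abs _ _).trans ?_
      calc ∑ m ∈ Ioc 0 ⌊Y⌋₊, |b m * (Sz a (z / m) - l * (z / m) ^ ω - a₀)|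
          ≤ ∑ m ∈ Ioc 0 ⌊Y⌋₊, |b m| * (E * (z / Y) ^ (-θ)) := by
            refine Finset.sum_le_sum fun m hm => ?_
            obtain ⟨hm1, hm2⟩ := mem_Ioc.1 hm
            have hm0 : (0 : ℝ) < m := by exact_mod_cast hm1
            have hmY : (m : ℝ) ≤ Y := (Nat.cast_le.2 hm2).trans (Nat.floor_le hY0.le)
            have h2 : z / Y ≤ z / m := div_le_div_of_nonneg_left hz0.le hm0 hmY
            have h3 : 1 ≤ z / Y := (one_le_div hY0).2 hYz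
            rw [abs_mul]
            refine mul_le_mul_of_nonneg_left ((hA (z / m) (h3.trans h2)).trans ?_) (abs_nonneg _)
            exact mul_le_mul_of_nonneg_left
              (Real.rpow_le_rpow_of_nonpos (by linarith) h2 (by linarith)) hE
        _ = E * (z / Y) ^ (-θ) * ∑ m ∈ Ioc 0 ⌊Y⌋₊, |b m| := by rw [← Finset.sum_mul, mul_comm]
        _ ≤ E * (z / Y) ^ (-θ) * (D * Y ^ (2 : ℝ)) :=
            mul_le_mul_of_nonneg_left (hDB Y hY1) (by positivity)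
  -- the exponents
  have hx1 : z ^ ω * Y ^ (-θ) ≤ z ^ (-(θ ^ 2 / 8)) := by
    rw [hYθ, ← Real.rpow_add hz0]
    exact Real.rpow_le_rpow_of_exponent_le hz (by linarith)
  have hx2 : Y ^ (-θ) ≤ z ^ (-(θ ^ 2 / 8)) := by
    rw [hYθ]
    exact Real.rpow_le_rpow_of_exponent_le hz (by nlinarith [sq_nonneg θ])
  have hx3 : (z / Y) ^ (-θ) * Y ^ (2 : ℝ) ≤ z ^ (-(θ ^ 2 / 8)) := by
    have e3 : (z / Y) ^ (-θ) = z ^ (-θ) * Y ^ θ := by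
      rw [Real.div_rpow hz0.le hY0.le, Real.rpow_neg hY0.le, div_inv_eq_mul]
    rw [e3, mul_assoc, ← Real.rpow_add hY0, hY, ← Real.rpow_mul hz0.le, ← Real.rpow_add hz0]
    exact Real.rpow_le_rpow_of_exponent_le hz (by nlinarith [sq_nonneg θ])
  have hx4 : Y ^ (-θ) * z ^ η ≤ z ^ (-(θ ^ 2 / 8)) := by
    rw [hYθ, ← Real.rpow_add hz0]
    exact Real.rpow_le_rpow_of_exponent_le hz (by linarith)
  have e5 : Sz (a * b) z - l * b₁ * z ^ ω - a₀ * b₀ =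
      (∑ m ∈ Ioc 0 ⌊Y⌋₊, b m * Sz a (z / m) - l * b₁ * z ^ ω - a₀ * b₀) +
        ∑ n ∈ Ioc 0 ⌊z⌋₊, a n * ∑ m ∈ Ioc ⌊Y⌋₊ (⌊z⌋₊ / n), b m := by
    rw [e1]
    ring
  rw [e5]
  refine (abs_add_le _ _).trans ((add_le_add hS1 hS2).trans ?_)
  calc |l| * z ^ ω * (Q * Y ^ (-θ)) + |a₀| * (Q * Y ^ (-θ)) +
        E * (z / Y) ^ (-θ) * (D * Y ^ (2 : ℝ)) + 2 * Q * Y ^ (-θ) * (D * z ^ η)
      = |l| * Q * (z ^ ω * Y ^ (-θ)) + |a₀| * Q * Y ^ (-θ) +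
        E * D * ((z / Y) ^ (-θ) * Y ^ (2 : ℝ)) + 2 * Q * D * (Y ^ (-θ) * z ^ η) := by ring
    _ ≤ |l| * Q * z ^ (-(θ ^ 2 / 8)) + |a₀| * Q * z ^ (-(θ ^ 2 / 8)) +
        E * D * z ^ (-(θ ^ 2 / 8)) + 2 * Q * D * z ^ (-(θ ^ 2 / 8)) := by
        gcongr
    _ = _ := by ring

end H1.P2
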