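import Pool.Agent.H1.PN.Cv
import Pool.Agent.H63.MA.LBd

/-!
# H1-P2-PO: positivity of products

`ar χ`, `lr χ`: the coefficients of `L(s, χ)` and the von Mangoldt coefficients of a real multiplicative function on ideals as arithmetic functions. `LD f g`: `log · f = f * g`.
`ld_pos`: `f 1 = 1`, `g ≥ 0`, `LD f g` give `f ≥ 0`.
-/

set_option autoImplicit false

open scoped NumberField

noncomputable section

namespace H1.P2

open Finset H63.MA H1.PN H57.AN

variable {K : Type} [Field K] [NumberField K]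

/-- real values of norm at most `1` -/
structure Rl (χ : Ideal (𝓞 K) →*₀ ℂ) : Prop where
  re : ∀ I, (((χ I).re : ℝ) : ℂ) = χ I
  le : ∀ I, ‖χ I‖ ≤ 1

omit [NumberField K] in
theorem Rl.abs {χ : Ideal (𝓞 K) →*₀ ℂ} (h : Rl χ) (I : Ideal (𝓞 K)) : |(χ I).re| ≤ 1 :=
  (Complex.abs_re_le_norm _).trans (h.le I)

theorem lbf_zero (χ : Ideal (𝓞 K) →*₀ ℂ) : lbf χ 0 = 0 := by
  unfold lbf
  refine sum_eq_zero fun I hI => ?_
  rw [lbf_mem, Ideal.absNorm_eq_zero_iff] at hI
  rw [hI]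
  exact map_zero χ

theorem lam_zero (χ : Ideal (𝓞 K) → ℂ) : lam χ 0 = 0 := by
  unfold lam
  refine sum_eq_zero fun v _ => ?_
  rw [show Icc 1 0 = (∅ : Finset ℕ) from rfl, sum_empty]

/-- the coefficients -/
def ar (χ : Ideal (𝓞 K) →*₀ ℂ) : ArithmeticFunction ℝ := ⟨fun n => (lbf χ n).re, by
  rw [lbf_zero, Complex.zero_re]⟩

/-- the von Mangoldt coefficients -/
def lr (χ : Ideal (𝓞 K) →*₀ ℂ) : ArithmeticFunction ℝ := ⟨fun n => (lam χ n).re, by
  rw [lam_zero, Complex.zero_re]⟩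

theorem ar_apply (χ : Ideal (𝓞 K) →*₀ ℂ) (n : ℕ) : ar χ n = (lbf χ n).re := rfl

theorem lr_apply (χ : Ideal (𝓞 K) →*₀ ℂ) (n : ℕ) : lr χ n = (lam χ n).re := rfl

theorem ar_re {χ : Ideal (𝓞 K) →*₀ ℂ} (h : Rl χ) (n : ℕ) : ((ar χ n : ℝ) : ℂ) = lbf χ n := by
  rw [ar_apply]
  unfold lbf
  rw [Complex.re_sum, Complex.ofReal_sum]
  exact sum_congr rfl fun I _ => h.re I

theorem lr_sum (χ : Ideal (𝓞 K) →*₀ ℂ) (h : Rl χ) (n : ℕ) : lr χ n =
    ∑ v ∈ PB K n, ∑ k ∈ Icc 1 n, if nm v ^ k = n then (χ v.asIdeal).re ^ k * Real.log (nm v) else 0 := by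
  have h1 : lam χ n = ((∑ v ∈ PB K n, ∑ k ∈ Icc 1 n,
      if nm v ^ k = n then (χ v.asIdeal).re ^ k * Real.log (nm v) else 0 : ℝ) : ℂ) := by
    unfold lam
    rw [Complex.ofReal_sum]
    refine sum_congr rfl fun v _ => ?_
    rw [Complex.ofReal_sum]
    refine sum_congr rfl fun k _ => ?_
    split_ifs
    · rw [Complex.ofReal_mul, Complex.ofReal_pow, h.re]
    · rw [Complex.ofReal_zero]
  rw [lr_apply, h1, Complex.ofReal_re]

theorem lr_re {χ : Ideal (𝓞 K) →*₀ ℂ} (h : Rl χ) (n : ℕ) : ((lr χ n : ℝ) : ℂ) = lam χ n := by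
  rw [lr_sum χ h]
  unfold lam
  rw [Complex.ofReal_sum]
  refine sum_congr rfl fun v _ => ?_
  rw [Complex.ofReal_sum]
  refine sum_congr rfl fun k _ => ?_
  split_ifs
  · rw [Complex.ofReal_mul, Complex.ofReal_pow, h.re]
  · rw [Complex.ofReal_zero]

/-- `log · f = f * g` -/
def LD (f g : ArithmeticFunction ℝ) : Prop := ∀ n : ℕ, Real.log n * f n = (f * g) n

theorem ld_ar {χ : Ideal (𝓞 K) →*₀ ℂ} (h : Rl χ) : LD (ar χ) (lr χ) := by
  intro n
  have h1 := congrFun (cvl χ) n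
  rw [LSeries.convolution_def] at h1
  beta_reduce at h1
  unfold pw at h1
  rw [pow_one, ← ar_re h] at h1
  have h2 : ((Real.log n * ar χ n : ℝ) : ℂ) = (((ar χ * lr χ) n : ℝ) : ℂ) := by
    rw [Complex.ofReal_mul, h1, ArithmeticFunction.mul_apply, Complex.ofReal_sum]
    refine sum_congr rfl fun p _ => ?_
    rw [Complex.ofReal_mul, ar_re h, lr_re h]
  exact Complex.ofReal_injective h2

theorem ld_mul {f g f' g' : ArithmeticFunction ℝ} (h : LD f g) (h' : LD f' g') :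
    LD (f * f') (g + g') := by
  intro n
  obtain ⟨F, hF⟩ : ∃ F : ArithmeticFunction ℝ, ∀ n, F n = Real.log n * f n :=
    ⟨⟨fun n => Real.log n * f n, by simp⟩, fun n => rfl⟩
  obtain ⟨F', hF'⟩ : ∃ F' : ArithmeticFunction ℝ, ∀ n, F' n = Real.log n * f' n :=
    ⟨⟨fun n => Real.log n * f' n, by simp⟩, fun n => rfl⟩
  have e1 : F = f * g := ArithmeticFunction.ext fun n => (hF n).trans (h n)
  have e2 : F' = f' * g' := ArithmeticFunction.ext fun n => (hF' n).trans (h' n)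
  have e3 : Real.log n * (f * f') n = (F * f' + f * F') n := by
    rw [ArithmeticFunction.add_apply, ArithmeticFunction.mul_apply, ArithmeticFunction.mul_apply,
      ArithmeticFunction.mul_apply, mul_sum, ← sum_add_distrib]
    refine sum_congr rfl fun p hp => ?_
    obtain ⟨hp1, hp2⟩ := Nat.mem_divisorsAntidiagonal.1 hp
    have h1 : p.1 ≠ 0 := fun h0 => hp2 (by rw [← hp1, h0, zero_mul])
    have h2 : p.2 ≠ 0 := fun h0 => hp2 (by rw [← hp1, h0, mul_zero])
    rw [hF, hF', ← hp1, Nat.cast_mul, Real.log_mul (by exact_mod_cast h1) (by exact_mod_cast h2)]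
    ring
  rw [e3, e1, e2]
  congr 1
  ring

theorem ld_pos {f g : ArithmeticFunction ℝ} (h : LD f g) (hf : f 1 = 1) (hg : ∀ n, 0 ≤ g n)
    (hg1 : g 1 = 0) : ∀ n, 0 ≤ f n := by
  intro n
  induction n using Nat.strong_induction_on with
  | _ n ih =>
    rcases Nat.lt_or_ge n 2 with hn | hn
    · interval_cases n
      · rw [ArithmeticFunction.map_zero]
      · rw [hf]
        norm_num
    · have h1 := h n
      have hl : 0 < Real.log n := Real.log_pos (by exact_mod_cast hn)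
      have h2 : 0 ≤ (f * g) n := by
        rw [ArithmeticFunction.mul_apply]
        refine sum_nonneg fun p hp => ?_
        obtain ⟨hp1, hp2⟩ := Nat.mem_divisorsAntidiagonal.1 hp
        by_cases h3 : p.2 = 1
        · rw [h3, hg1, mul_zero]
        · have h4 : p.2 ≠ 0 := fun h0 => hp2 (by rw [← hp1, h0, mul_zero])
          have h5 : p.1 ≠ 0 := fun h0 => hp2 (by rw [← hp1, h0, zero_mul])
          have h6 : p.1 < n := by
            rw [← hp1]
            exact (Nat.lt_mul_iff_one_lt_right (by omega)).2 (by omega)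
          exact mul_nonneg (ih _ h6) (hg _)
      rw [← h1] at h2
      exact nonneg_of_mul_nonneg_right h2 hl

theorem lr_one {χ : Ideal (𝓞 K) →*₀ ℂ} (h : Rl χ) : lr χ 1 = 0 := by
  rw [lr_sum χ h]
  refine sum_eq_zero fun v _ => sum_eq_zero fun k hk => ?_
  rw [if_neg]
  intro h1
  have h2 := lt_nm_pow v k
  have h3 := (mem_Icc.1 hk).1
  omega

theorem ar_one (χ : Ideal (𝓞 K) →*₀ ℂ) : ar χ 1 = 1 := by
  rw [ar_apply]
  unfold lbf
  have h1 : (Ideal.finite_setOfPred_absNorm_eq (S := 𝓞 K) 1).toFinset = {⊤} := by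
    ext I
    rw [lbf_mem, mem_singleton, Ideal.absNorm_eq_one_iff]
  rw [h1, sum_singleton, ← Ideal.one_eq_top, map_one, Complex.one_re]

theorem mul_one' (f g : ArithmeticFunction ℝ) (hf : f 1 = 1) (hg : g 1 = 1) : (f * g) 1 = 1 := by
  rw [ArithmeticFunction.mul_apply_one, hf, hg, mul_one]

theorem triv_rl : Rl (lbd_triv K) := by
  refine ⟨fun I => ?_, fun I => ?_⟩
  · show (((if I = ⊥ then (0 : ℂ) else 1).re : ℝ) : ℂ) = if I = ⊥ then (0 : ℂ) else 1
    split_ifs <;> simp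
  · show ‖(if I = ⊥ then (0 : ℂ) else 1)‖ ≤ 1
    split_ifs <;> simp

theorem triv_re (v : Pl K) : ((lbd_triv K) v.asIdeal).re = 1 := by
  show ((if v.asIdeal = ⊥ then (0 : ℂ) else 1)).re = 1
  rw [if_neg v.ne_bot, Complex.one_re]

/-- two characters -/
theorem pos2 {χ : Ideal (𝓞 K) →*₀ ℂ} (h : Rl χ) : ∀ n, 0 ≤ (ar (lbd_triv K) * ar χ) n := by
  refine ld_pos (ld_mul (ld_ar triv_rl) (ld_ar h)) (mul_one' _ _ (ar_one _) (ar_one _))
    (fun n => ?_) ?_
  · rw [ArithmeticFunction.add_apply, lr_sum _ triv_rl, lr_sum _ h, ← sum_add_distrib]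
    refine sum_nonneg fun v _ => ?_
    rw [← sum_add_distrib]
    refine sum_nonneg fun k _ => ?_
    split_ifs
    · rw [triv_re, one_pow, ← add_mul]
      refine mul_nonneg ?_ (Real.log_natCast_nonneg _)
      have h1 : |(χ v.asIdeal).re ^ k| ≤ 1 := by
        rw [abs_pow]
        exact pow_le_one₀ (abs_nonneg _) (h.abs _)
      linarith [(abs_le.1 h1).1]
    · rw [add_zero]
  · rw [ArithmeticFunction.add_apply, lr_one triv_rl, lr_one h, add_zero]

/-- four characters -/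
theorem pos4 {χ ψ φ : Ideal (𝓞 K) →*₀ ℂ} (h : Rl χ) (h' : Rl ψ) (h'' : Rl φ)
    (hm : ∀ v : Pl K, (φ v.asIdeal).re = (χ v.asIdeal).re * (ψ v.asIdeal).re) :
    ∀ n, 0 ≤ ((ar (lbd_triv K) * ar χ) * (ar ψ * ar φ)) n := by
  refine ld_pos (ld_mul (ld_mul (ld_ar triv_rl) (ld_ar h)) (ld_mul (ld_ar h') (ld_ar h'')))
    (mul_one' _ _ (mul_one' _ _ (ar_one _) (ar_one _)) (mul_one' _ _ (ar_one _) (ar_one _)))
    (fun n => ?_) ?_
  · rw [ArithmeticFunction.add_apply, ArithmeticFunction.add_apply, ArithmeticFunction.add_apply,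
      lr_sum _ triv_rl, lr_sum _ h, lr_sum _ h', lr_sum _ h'', ← sum_add_distrib,
      ← sum_add_distrib, ← sum_add_distrib]
    refine sum_nonneg fun v _ => ?_
    rw [← sum_add_distrib, ← sum_add_distrib, ← sum_add_distrib]
    refine sum_nonneg fun k _ => ?_
    split_ifs
    · rw [triv_re, one_pow, hm, mul_pow]
      have h1 : |(χ v.asIdeal).re ^ k| ≤ 1 := by
        rw [abs_pow]
        exact pow_le_one₀ (abs_nonneg _) (h.abs _)
      have h2 : |(ψ v.asIdeal).re ^ k| ≤ 1 := by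
        rw [abs_pow]
        exact pow_le_one₀ (abs_nonneg _) (h'.abs _)
      have h3 : 0 ≤ 1 + (χ v.asIdeal).re ^ k := by linarith [(abs_le.1 h1).1]
      have h4 : 0 ≤ 1 + (ψ v.asIdeal).re ^ k := by linarith [(abs_le.1 h2).1]
      have h5 : 0 ≤ Real.log (nm v) := Real.log_natCast_nonneg _
      have h6 := mul_nonneg (mul_nonneg h3 h4) h5
      linarith
    · simp
  · rw [ArithmeticFunction.add_apply, ArithmeticFunction.add_apply, ArithmeticFunction.add_apply,
      lr_one triv_rl, lr_one h, lr_one h', lr_one h'']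
    simp

end H1.P2
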