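import Pool.Agent.H1.P2.Cn
import Pool.Agent.H63.MA.EulA

/-!
# H1-P2-SG: Siegel's theorem for real ray class characters of a fixed number field

`sieg`: `L(σ, ψ) ≥ c(ε) (N𝔤)^(-ε)` for `1 < σ ≤ 2`, for all real characters `ψ` of modulus `𝔤` with `L(1, ψ) ≠ 0` (`Nv`).
-/

set_option autoImplicit false

open scoped NumberField

noncomputable section

namespace H1.P2

open Finset Filter Topology H63.MA H1.PN H57.AN H57.SL H36.QA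

variable {K : Type} [Field K] [NumberField K]

/-- the value at `1` is not zero -/
def Nv (χ : Ideal (𝓞 K) →*₀ ℂ) : Prop :=
  ∃ c : ℝ, 0 < c ∧ ∀ σ : ℝ, 1 < σ → σ ≤ 2 → c ≤ ‖LSeries (lbf χ) (σ : ℂ)‖

/-- the product of two characters -/
theorem rcp {𝔣 𝔤 : Ideal (𝓞 K)} (χ : RC K 𝔣) (ψ : RC K 𝔤) :
    ∃ φ : RC K (𝔣 * 𝔤), ∀ I, φ.χ I = χ.χ I * ψ.χ I := by
  obtain ⟨φ, hφ⟩ : ∃ φ : Ideal (𝓞 K) →*₀ ℂ, ∀ I, φ I = χ.χ I * ψ.χ I := by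
    refine ⟨⟨⟨fun I => χ.χ I * ψ.χ I, ?_⟩, ?_, ?_⟩, fun _ => rfl⟩
    · show χ.χ 0 * ψ.χ 0 = 0
      rw [map_zero, zero_mul]
    · show χ.χ 1 * ψ.χ 1 = 1
      rw [map_one, map_one, mul_one]
    · intro I J
      show χ.χ (I * J) * ψ.χ (I * J) = χ.χ I * ψ.χ I * (χ.χ J * ψ.χ J)
      rw [map_mul, map_mul]
      ring
  refine ⟨⟨φ, fun I h0 hI => ?_, fun I hI => ?_, fun x hx hx1 => ?_⟩, hφ⟩
  · rw [hφ, norm_mul, χ.norm_one I h0 (IsCoprime.of_mul_right_left hI),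
      ψ.norm_one I h0 (IsCoprime.of_mul_right_right hI), one_mul]
  · rw [hφ]
    by_cases h1 : IsCoprime I 𝔣
    · have h2 : ¬ IsCoprime I 𝔤 := fun h2 => hI (IsCoprime.mul_right h1 h2)
      rw [ψ.zero_of I h2, mul_zero]
    · rw [χ.zero_of I h1, zero_mul]
  · have h1 : 𝔣 * 𝔤 ≤ 𝔣 := Ideal.mul_le_left
    have h2 : 𝔣 * 𝔤 ≤ 𝔤 := Ideal.mul_le_right
    have h3 : x - 1 ∈ 𝔣 := h1 hx1
    have h4 : x - 1 ∈ 𝔤 := h2 hx1
    rw [hφ, χ.ray x hx h3, ψ.ray x hx h4, one_mul]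

omit [NumberField K] in
theorem rl_mul {χ ψ φ : Ideal (𝓞 K) →*₀ ℂ} (h : Rl χ) (h' : Rl ψ) (hm : ∀ I, φ I = χ I * ψ I) :
    Rl φ := by
  refine ⟨fun I => ?_, fun I => ?_⟩
  · have h1 : φ I = (((χ I).re * (ψ I).re : ℝ) : ℂ) := by
      rw [Complex.ofReal_mul, h.re, h'.re, hm]
    rw [h1, Complex.ofReal_re]
  · rw [hm, norm_mul]
    exact mul_le_one₀ (h.le I) (norm_nonneg _) (h'.le I)

omit [NumberField K] in
theorem rl_re {χ ψ φ : Ideal (𝓞 K) →*₀ ℂ} (h : Rl χ) (h' : Rl ψ) (hm : ∀ I, φ I = χ I * ψ I)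
    (I : Ideal (𝓞 K)) : (φ I).re = (χ I).re * (ψ I).re := by
  have h1 : φ I = (((χ I).re * (ψ I).re : ℝ) : ℂ) := by
    rw [Complex.ofReal_mul, h.re, h'.re, hm]
  rw [h1, Complex.ofReal_re]

/-- real on the primes, real on all ideals -/
theorem rl_of {𝔤 : Ideal (𝓞 K)} (ψ : RC K 𝔤) (h : ∀ v : Pl K, ¬ v.asIdeal ∣ 𝔤 → ψ.χ v.asIdeal ^ 2 = 1) :
    Rl ψ.χ := by
  have hv : ∀ v : Pl K, (((ψ.χ v.asIdeal).re : ℝ) : ℂ) = ψ.χ v.asIdeal ∧ ‖ψ.χ v.asIdeal‖ ≤ 1 := by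
    intro v
    by_cases hd : v.asIdeal ∣ 𝔤
    · have h1 : ¬ IsCoprime v.asIdeal 𝔤 := by
        intro h2
        have h3 : v.asIdeal ∣ 1 := by
          have h4 := (h2.symm.of_isCoprime_of_dvd_left hd)
          exact (isCoprime_self.1 h4).dvd
        have h5 : v.asIdeal = ⊤ := by
          have := isUnit_of_dvd_one h3
          rwa [Ideal.isUnit_iff] at this
        exact v.isPrime.ne_top h5
      rw [ψ.zero_of _ h1]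
      simp
    · have h2 := h v hd
      rw [sq, mul_self_eq_one_iff] at h2
      rcases h2 with h1 | h1 <;> rw [h1] <;> simp
  have hall : ∀ I : Ideal (𝓞 K), (((ψ.χ I).re : ℝ) : ℂ) = ψ.χ I ∧ ‖ψ.χ I‖ ≤ 1 := by
    intro I
    induction I using UniqueFactorizationMonoid.induction_on_prime with
    | h₁ => rw [map_zero]; simp
    | h₂ x hx =>
      rw [Ideal.isUnit_iff.1 hx, ← Ideal.one_eq_top, map_one]
      simp
    | h₃ a p ha hp ih =>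
      have hp0 : p ≠ ⊥ := hp.ne_zero
      obtain ⟨h1, h2⟩ := hv ⟨p, Ideal.isPrime_of_prime hp, hp0⟩
      obtain ⟨h3, h4⟩ := ih
      rw [map_mul]
      have h1' : (((ψ.χ p).re : ℝ) : ℂ) = ψ.χ p := h1
      have h2' : ‖ψ.χ p‖ ≤ 1 := h2
      constructor
      · have h5 : ψ.χ p * ψ.χ a = (((ψ.χ p).re * (ψ.χ a).re : ℝ) : ℂ) := by
          rw [Complex.ofReal_mul, h1', h3]
        rw [h5, Complex.ofReal_re]
      · rw [norm_mul]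
        exact mul_le_one₀ h2' (norm_nonneg _) h4
  exact ⟨fun I => (hall I).1, fun I => (hall I).2⟩

theorem sz1 {f : ArithmeticFunction ℝ} (hf : ∀ n, 0 ≤ f n) (h1 : f 1 = 1) (β : ℝ) {z : ℝ}
    (hz : 1 ≤ z) : 1 ≤ Sz (tw β f) z := by
  unfold Sz
  have h2 : tw β f 1 ≤ ∑ n ∈ Ioc 0 ⌊z⌋₊, tw β f n :=
    single_le_sum (f := fun n => tw β f n)
      (fun n _ => mul_nonneg (hf n) (Real.rpow_nonneg (Nat.cast_nonneg _) _))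
      (mem_Ioc.2 ⟨by norm_num, Nat.le_floor (by simpa using hz)⟩)
  rwa [tw_apply, h1, Nat.cast_one, Real.one_rpow, one_mul] at h2

/-- the conclusion from the inequality for all `z` -/
theorem finl {P b ω ω₀ τ M X : ℝ} (hP : 0 < P) (hω : ω ≤ ω₀) (hτ : 0 < τ)
    (hM : 1 ≤ M) (hX : 1 ≤ X)
    (h : ∀ z : ℝ, 1 ≤ z → 1 ≤ P * b * z ^ ω + M * X * z ^ (-τ)) :
    1 / (2 * P * (2 * M) ^ (ω₀ / τ)) * X ^ (-(ω₀ / τ)) ≤ b := by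
  obtain ⟨W, hW⟩ : ∃ W : ℝ, W = 2 * M * X := ⟨_, rfl⟩
  have hW1 : 1 ≤ W := by rw [hW]; nlinarith
  have hW0 : 0 < W := by linarith
  have hz1 : 1 ≤ W ^ (1 / τ) := Real.one_le_rpow hW1 (by positivity)
  have h1 := h (W ^ (1 / τ)) hz1
  have e1 : (W ^ (1 / τ)) ^ (-τ) = W⁻¹ := by
    rw [← Real.rpow_mul hW0.le, show 1 / τ * -τ = -1 by field_simp, Real.rpow_neg_one]
  have e2 : M * X * (W ^ (1 / τ)) ^ (-τ) = 1 / 2 := by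
    rw [e1, hW]
    field_simp
  rw [e2] at h1
  have h2 : 1 / 2 ≤ P * b * (W ^ (1 / τ)) ^ ω := by linarith
  have h3 : 0 < (W ^ (1 / τ)) ^ ω := Real.rpow_pos_of_pos (by linarith) _
  have h4 : 0 < P * b := by
    by_contra h5
    push Not at h5
    nlinarith
  have h5 : (W ^ (1 / τ)) ^ ω ≤ (W ^ (1 / τ)) ^ ω₀ := Real.rpow_le_rpow_of_exponent_le hz1 hω
  have e3 : (W ^ (1 / τ)) ^ ω₀ = (2 * M) ^ (ω₀ / τ) * X ^ (ω₀ / τ) := by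
    rw [← Real.rpow_mul hW0.le, hW, Real.mul_rpow (by linarith) (by linarith)]
    congr 2 <;> ring
  have h6 : 1 / 2 ≤ P * b * ((2 * M) ^ (ω₀ / τ) * X ^ (ω₀ / τ)) := by
    rw [← e3]
    exact h2.trans (mul_le_mul_of_nonneg_left h5 h4.le)
  have hA : 0 < (2 * M) ^ (ω₀ / τ) := Real.rpow_pos_of_pos (by linarith) _
  have hB : 0 < X ^ (ω₀ / τ) := Real.rpow_pos_of_pos (by linarith) _
  rw [Real.rpow_neg (by linarith), one_div, ← mul_inv, inv_le_iff_one_le_mul₀ (by positivity)]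
  nlinarith

/-- the primes which divide an ideal -/
theorem dvc {𝔤 : Ideal (𝓞 K)} (h : 𝔤 ≠ ⊥) (B : Finset (Pl K)) (hB : ∀ v ∈ B, v.asIdeal ∣ 𝔤) :
    (2 : ℝ) ^ B.card ≤ Ideal.absNorm 𝔤 := by
  have h1 : ∏ v ∈ B, v.asIdeal ∣ 𝔤 := by
    refine Finset.prod_dvd_of_coprime ?_ fun v hv => hB v hv
    intro v _ w _ hvw
    refine Ideal.isCoprime_iff_sup_eq.2 ?_
    have hv := v.isMaximal
    have hw := w.isMaximal
    exact Ideal.IsMaximal.coprime_of_ne hv hw fun h => hvw (IsDedekindDomain.HeightOneSpectrum.ext h)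
  have h2 := Ideal.absNorm_dvd_absNorm_of_le (Ideal.le_of_dvd h1)
  rw [map_prod] at h2
  have h3 : Ideal.absNorm 𝔤 ≠ 0 := by
    rw [Ne, Ideal.absNorm_eq_zero_iff]
    exact h
  have h4 : 2 ^ B.card ≤ ∏ v ∈ B, Ideal.absNorm v.asIdeal := by
    rw [← Finset.prod_const]
    exact Finset.prod_le_prod' fun v _ => two_nm v
  have h5 := h4.trans (Nat.le_of_dvd (Nat.pos_of_ne_zero h3) h2)
  exact_mod_cast h5

/-- sums of `1 / N v` over the divisors -/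
theorem dsm {ε : ℝ} (hε : 0 < ε) : ∃ C : ℝ, ∀ 𝔤 : Ideal (𝓞 K), 𝔤 ≠ ⊥ → ∀ B : Finset (Pl K),
    (∀ v ∈ B, v.asIdeal ∣ 𝔤) →
    ∑ v ∈ B, (nm v : ℝ)⁻¹ ≤ C + ε * Real.log (Ideal.absNorm 𝔤) := by
  classical
  obtain ⟨T, hT⟩ : ∃ T : ℝ, T = 2 / ε := ⟨_, rfl⟩
  have hT0 : 0 < T := by rw [hT]; positivity
  refine ⟨((PB K T).card : ℝ), fun 𝔤 h𝔤 B hB => ?_⟩
  have h1 : ∀ v ∈ B, (nm v : ℝ)⁻¹ ≤ (if v ∈ PB K T then 1 else 0) + T⁻¹ := by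
    intro v _
    have h2 : (2 : ℝ) ≤ nm v := by exact_mod_cast two_nm v
    by_cases h3 : v ∈ PB K T
    · rw [if_pos h3]
      have h4 : (nm v : ℝ)⁻¹ ≤ 1 := inv_le_one_of_one_le₀ (by linarith)
      have h5 : 0 < T⁻¹ := by positivity
      linarith
    · rw [if_neg h3, zero_add]
      rw [mem_PB] at h3
      push Not at h3
      exact inv_anti₀ hT0 h3.le
  refine (sum_le_sum h1).trans ?_
  rw [sum_add_distrib, sum_const, nsmul_eq_mul]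
  have h2 : ∑ v ∈ B, (if v ∈ PB K T then (1 : ℝ) else 0) ≤ (PB K T).card := by
    rw [← sum_filter, sum_const, nsmul_eq_mul, mul_one]
    exact_mod_cast card_le_card fun v hv => (mem_filter.1 hv).2
  have h3 := dvc h𝔤 B hB
  have h4 : (B.card : ℝ) * Real.log 2 ≤ Real.log (Ideal.absNorm 𝔤) := by
    have h5 := Real.log_le_log (by positivity) h3
    rwa [Real.log_pow] at h5
  have h5 : (1 : ℝ) / 2 ≤ Real.log 2 := by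
    have := Real.log_two_gt_d9
    linarith
  have h6 : (B.card : ℝ) * T⁻¹ ≤ ε * Real.log (Ideal.absNorm 𝔤) := by
    have e1 : T⁻¹ = ε / 2 := by
      rw [hT]
      field_simp
    rw [e1]
    have h7 : (B.card : ℝ) * (1 / 2) ≤ (B.card : ℝ) * Real.log 2 :=
      mul_le_mul_of_nonneg_left h5 (Nat.cast_nonneg _)
    nlinarith
  linarith

/-- characters with principal product -/
theorem cmpr {ε : ℝ} (hε : 0 < ε) {𝔣 : Ideal (𝓞 K)} (h𝔣 : 𝔣 ≠ ⊥) (χ : RC K 𝔣) (hr : Rl χ.χ)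
    (hn : Nv χ.χ) : ∃ c : ℝ, 0 < c ∧ ∀ 𝔤 : Ideal (𝓞 K), 𝔤 ≠ ⊥ → ∀ ψ : RC K 𝔤, Rl ψ.χ →
      (∀ v : Pl K, ¬ v.asIdeal ∣ 𝔣 * 𝔤 → (χ.χ v.asIdeal).re = (ψ.χ v.asIdeal).re) →
      ∀ σ : ℝ, 1 < σ → σ ≤ 2 → c * (Ideal.absNorm 𝔤 : ℝ) ^ (-ε) ≤ ‖LSeries (lbf ψ.χ) (σ : ℂ)‖ := by
  obtain ⟨c₀, hc₀, hn⟩ := hn
  obtain ⟨C, hC, heul⟩ := eul_two K
  obtain ⟨D, hD⟩ := dsm (K := K) (half_pos hε)
  have hN := nf_one h𝔣
  refine ⟨c₀ / C ^ 2 * Real.exp (-(2 * D + ε * Real.log (Ideal.absNorm 𝔣))), by positivity,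
    fun 𝔤 h𝔤 ψ hr' h σ hσ hσ2 => ?_⟩
  have hN' := nf_one h𝔤
  have hN0 : (0 : ℝ) < Ideal.absNorm 𝔤 := by linarith
  have hfg : 𝔣 * 𝔤 ≠ ⊥ := mul_ne_zero h𝔣 h𝔤
  have hfin : {v : Pl K | v.asIdeal ∣ 𝔣 * 𝔤}.Finite := Ideal.finite_factors hfg
  obtain ⟨B, hBd⟩ : ∃ B : Finset (Pl K), ∀ v, v ∈ B ↔ v.asIdeal ∣ 𝔣 * 𝔤 :=
    ⟨hfin.toFinset, fun v => by rw [Set.Finite.mem_toFinset]; rfl⟩
  have h1 := hD (𝔣 * 𝔤) hfg B fun v hv => (hBd v).1 hv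
  have h2 := hn σ hσ hσ2
  obtain ⟨h3, -⟩ := heul χ.χ hr.le σ hσ hσ2
  obtain ⟨-, h4⟩ := heul ψ.χ hr'.le σ hσ hσ2
  rw [lbd_lser_eq (χ.χ : Ideal (𝓞 K) → ℂ) (map_zero χ.χ) hr.le hσ] at h3
  rw [lbd_lser_eq (ψ.χ : Ideal (𝓞 K) → ℂ) (map_zero ψ.χ) hr'.le hσ] at h4
  have hsum : ∀ {φ : Ideal (𝓞 K) →*₀ ℂ}, Rl φ →
      Summable fun v : Pl K => (φ v.asIdeal).re * (nm v : ℝ) ^ (-σ) := by
    intro φ hφ
    refine Summable.of_norm_bounded (pz_summable K (s := σ) (by linarith)) fun v => ?_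
    rw [norm_mul, Real.norm_eq_abs, Real.norm_of_nonneg (Real.rpow_nonneg (Nat.cast_nonneg _) _)]
    exact mul_le_of_le_one_left (Real.rpow_nonneg (Nat.cast_nonneg _) _) (hφ.abs _)
  have h5 : ∑' v : Pl K, (χ.χ v.asIdeal).re * (nm v : ℝ) ^ (-σ) ≤
      ∑' v : Pl K, (ψ.χ v.asIdeal).re * (nm v : ℝ) ^ (-σ) + 2 * ∑ v ∈ B, (nm v : ℝ)⁻¹ := by
    have e1 : ∑' v : Pl K, (χ.χ v.asIdeal).re * (nm v : ℝ) ^ (-σ) -
        ∑' v : Pl K, (ψ.χ v.asIdeal).re * (nm v : ℝ) ^ (-σ) =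
        ∑ v ∈ B, ((χ.χ v.asIdeal).re * (nm v : ℝ) ^ (-σ) - (ψ.χ v.asIdeal).re * (nm v : ℝ) ^ (-σ)) := by
      rw [← (hsum hr).tsum_sub (hsum hr')]
      refine tsum_eq_sum fun v hv => ?_
      rw [h v fun hd => hv ((hBd v).2 hd), sub_self]
    have h6 : ∑ v ∈ B, ((χ.χ v.asIdeal).re * (nm v : ℝ) ^ (-σ) - (ψ.χ v.asIdeal).re * (nm v : ℝ) ^ (-σ)) ≤
        2 * ∑ v ∈ B, (nm v : ℝ)⁻¹ := by
      rw [mul_sum]
      refine sum_le_sum fun v _ => ?_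
      have h7 : (2 : ℝ) ≤ nm v := by exact_mod_cast two_nm v
      have h8 : (nm v : ℝ) ^ (-σ) ≤ (nm v : ℝ)⁻¹ := by
        rw [← Real.rpow_neg_one]
        exact Real.rpow_le_rpow_of_exponent_le (by linarith) (by linarith)
      have h9 : 0 ≤ (nm v : ℝ) ^ (-σ) := Real.rpow_nonneg (by linarith) _
      have h10 : (χ.χ v.asIdeal).re - (ψ.χ v.asIdeal).re ≤ 2 := by
        linarith [(abs_le.1 (hr.abs v.asIdeal)).2, (abs_le.1 (hr'.abs v.asIdeal)).1]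
      calc (χ.χ v.asIdeal).re * (nm v : ℝ) ^ (-σ) - (ψ.χ v.asIdeal).re * (nm v : ℝ) ^ (-σ)
          = ((χ.χ v.asIdeal).re - (ψ.χ v.asIdeal).re) * (nm v : ℝ) ^ (-σ) := by ring
        _ ≤ 2 * (nm v : ℝ) ^ (-σ) := mul_le_mul_of_nonneg_right h10 h9
        _ ≤ 2 * (nm v : ℝ)⁻¹ := by linarith
    linarith
  have h6 : c₀ / C ^ 2 * Real.exp (-(2 * ∑ v ∈ B, (nm v : ℝ)⁻¹)) ≤ ‖LSeries (lbf ψ.χ) (σ : ℂ)‖ := by
    have h7 : c₀ / C ≤ Real.exp (∑' v : Pl K, (χ.χ v.asIdeal).re * (nm v : ℝ) ^ (-σ)) := by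
      rw [div_le_iff₀ hC]
      linarith
    have h8 : Real.exp (∑' v : Pl K, (χ.χ v.asIdeal).re * (nm v : ℝ) ^ (-σ)) *
        Real.exp (-(2 * ∑ v ∈ B, (nm v : ℝ)⁻¹)) ≤
        Real.exp (∑' v : Pl K, (ψ.χ v.asIdeal).re * (nm v : ℝ) ^ (-σ)) := by
      rw [← Real.exp_add, Real.exp_le_exp]
      linarith
    have h9 : c₀ / C * Real.exp (-(2 * ∑ v ∈ B, (nm v : ℝ)⁻¹)) ≤
        C * ‖LSeries (lbf ψ.χ) (σ : ℂ)‖ :=
      (mul_le_mul_of_nonneg_right h7 (Real.exp_pos _).le).trans (h8.trans h4)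
    have h10 : c₀ / C ^ 2 * Real.exp (-(2 * ∑ v ∈ B, (nm v : ℝ)⁻¹)) =
        c₀ / C * Real.exp (-(2 * ∑ v ∈ B, (nm v : ℝ)⁻¹)) / C := by
      field_simp
    rw [h10, div_le_iff₀ hC]
    linarith
  refine le_trans ?_ h6
  rw [mul_assoc]
  refine mul_le_mul_of_nonneg_left ?_ (by positivity)
  rw [Real.rpow_def_of_pos hN0, ← Real.exp_add, Real.exp_le_exp]
  have e2 : Real.log (Ideal.absNorm (𝔣 * 𝔤)) = Real.log (Ideal.absNorm 𝔣) + Real.log (Ideal.absNorm 𝔤) := by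
    rw [map_mul, Nat.cast_mul, Real.log_mul (by linarith) (by linarith)]
  rw [e2] at h1
  linarith

/-- the lower bound at `1` -/
theorem s1 {n : ℕ} (hn : 0 < n) (hK : TC K n) {κ C θ : ℝ} {A : ℕ} (h : Cx K κ C θ A) {ε : ℝ}
    (hε : 0 < ε) : ∃ c : ℝ, 0 < c ∧ ∀ 𝔤 : Ideal (𝓞 K), 𝔤 ≠ ⊥ → ∀ ψ : RC K 𝔤, ψ.Non → Rl ψ.χ →
      Nv ψ.χ → (c * (Ideal.absNorm 𝔤 : ℝ) ^ (-ε) ≤ Lm (ar ψ.χ) 1 ∨
        ∀ σ : ℝ, 1 < σ → σ ≤ 2 → c * (Ideal.absNorm 𝔤 : ℝ) ^ (-ε) ≤ ‖LSeries (lbf ψ.χ) (σ : ℂ)‖) := by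
  have ht0 := h.t0
  have ht1 := h.t1
  have hκ := h.k0
  have hC := h.c1
  obtain ⟨τ, hτ⟩ : ∃ τ : ℝ, τ = θ ^ 4 / 512 := ⟨_, rfl⟩
  have hτ0 : 0 < τ := by rw [hτ]; positivity
  have hτ1 : τ ≤ θ ^ 2 / 8 := by
    rw [hτ]
    have h1 : θ ^ 4 = θ ^ 2 * θ ^ 2 := by ring
    have h2 : θ ^ 2 ≤ 1 := by nlinarith
    nlinarith [sq_nonneg θ]
  obtain ⟨ω₀, hω₀⟩ : ∃ ω₀ : ℝ, ω₀ = min (min (θ ^ 4 / 2048) (κ / (2 * C))) (ε * τ / (4 * A + 1)) := ⟨_, rfl⟩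
  have hω0 : 0 < ω₀ := by
    rw [hω₀]
    refine lt_min (lt_min (by positivity) (by positivity)) (by positivity)
  have hωa : ω₀ ≤ θ ^ 4 / 2048 := by
    rw [hω₀]
    exact (min_le_left _ _).trans (min_le_left _ _)
  have hωb : ω₀ ≤ κ / (2 * C) := by
    rw [hω₀]
    exact (min_le_left _ _).trans (min_le_right _ _)
  have hωc : ω₀ ≤ ε * τ / (4 * A + 1) := by
    rw [hω₀]
    exact min_le_right _ _
  have hω16 : ω₀ ≤ θ ^ 2 / 16 := by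
    rw [hτ] at hτ1
    linarith
  have hA2 : 2 * (A : ℝ) * (ω₀ / τ) ≤ ε / 2 := by
    rw [le_div_iff₀ (by positivity)] at hωc
    rw [← mul_div_assoc, div_le_iff₀ hτ0]
    nlinarith
  -- values at `1`
  have hge : ∀ 𝔤 : Ideal (𝓞 K), 𝔤 ≠ ⊥ → ∀ ψ : RC K 𝔤, ψ.Non → Rl ψ.χ →
      0 ≤ Lm (ar ψ.χ) 1 := by
    intro 𝔤 h𝔤 ψ hnon hr
    obtain ⟨Z, hZ, hz⟩ := zub1 K
    have hN := nf_one h𝔤
    refine lm_lim (P := fun x => 0 ≤ x) (Q := C * (Ideal.absNorm 𝔤 : ℝ) ^ A) (δ := 2 * θ)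
      (by positivity) (by linarith) (by linarith) (h.sv 𝔤 h𝔤 ψ hnon hr) isClosed_Ici
      fun σ hσ hσ2 => ?_
    exact le_trans (div_nonneg (by linarith) (by linarith)) (llow hZ hz hr hσ hσ2)
  have hgt : ∀ 𝔤 : Ideal (𝓞 K), 𝔤 ≠ ⊥ → ∀ ψ : RC K 𝔤, ψ.Non → Rl ψ.χ → Nv ψ.χ →
      0 < Lm (ar ψ.χ) 1 := by
    intro 𝔤 h𝔤 ψ hnon hr hnv
    obtain ⟨c₀, hc₀, hnv⟩ := hnv
    have hN := nf_one h𝔤
    have h1 := lm_lim (P := fun x => c₀ ≤ |x|) (Q := C * (Ideal.absNorm 𝔤 : ℝ) ^ A) (δ := 2 * θ)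
      (by positivity) (by linarith) (by linarith) (h.sv 𝔤 h𝔤 ψ hnon hr)
      (isClosed_le continuous_const continuous_abs)
      fun σ hσ hσ2 => by
        rw [← lmn hr hσ]
        exact hnv σ hσ hσ2
    rw [abs_of_nonneg (hge 𝔤 h𝔤 ψ hnon hr)] at h1
    linarith
  by_cases hcase : ∃ (𝔣 : Ideal (𝓞 K)) (χ : RC K 𝔣), 𝔣 ≠ ⊥ ∧ χ.Non ∧ Rl χ.χ ∧ Nv χ.χ ∧
      Lm (ar χ.χ) (1 - ω₀) < 0
  · obtain ⟨𝔣, χ, h𝔣, hnon, hr, hnv, hneg⟩ := hcase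
    have hN := nf_one h𝔣
    have hL1 := hgt 𝔣 h𝔣 χ hnon hr hnv
    -- the zero
    obtain ⟨β, hβ, hβ0⟩ : ∃ β ∈ Set.Icc (1 - ω₀) 1, Lm (ar χ.χ) β = 0 := by
      have h1 := lm_cont (f := ar χ.χ) (Q := C * (Ideal.absNorm 𝔣 : ℝ) ^ A) (δ := 2 * θ)
        (β₀ := 1 - ω₀) (by positivity) (h.sv 𝔣 h𝔣 χ hnon hr) (by nlinarith [sq_nonneg θ])
        (by nlinarith [sq_nonneg θ])
      have h2 := intermediate_value_Icc (by linarith : 1 - ω₀ ≤ 1)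
        (h1.mono (Set.Icc_subset_Icc le_rfl (by norm_num)))
      exact h2 ⟨hneg.le, hL1.le⟩
    have hβ1 : β < 1 := by
      rcases lt_or_eq_of_le hβ.2 with h1 | h1
      · exact h1
      · rw [h1] at hβ0
        linarith
    obtain ⟨M, hM, hfour⟩ := four h (β := β) (by linarith [hβ.1]) hβ1 h𝔣 χ hnon hr hβ0
    obtain ⟨c₁, hc₁, hcm⟩ := cmpr hε h𝔣 χ hr hnv
    obtain ⟨U, hU, hup⟩ := upe (K := K) hn hK 0 (ε := ε / 2) (by linarith)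
    obtain ⟨P, hP⟩ : ∃ P : ℝ, P = κ / (1 - β) * Lm (ar χ.χ) 1 := ⟨_, rfl⟩
    have hP0 : 0 < P := by
      rw [hP]
      have : 0 < 1 - β := by linarith
      positivity
    obtain ⟨c₂, hc₂⟩ : ∃ c₂ : ℝ, c₂ = 1 / (2 * P * (2 * M) ^ (ω₀ / τ)) /
      (U * (Ideal.absNorm 𝔣 : ℝ) ^ (ε / 2)) := ⟨_, rfl⟩
    have hc₂0 : 0 < c₂ := by
      rw [hc₂]
      have : 0 < (2 * M) ^ (ω₀ / τ) := Real.rpow_pos_of_pos (by linarith) _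
      positivity
    refine ⟨min c₁ c₂, lt_min hc₁ hc₂0, fun 𝔤 h𝔤 ψ hn' hr' hnv' => ?_⟩
    have hN' := nf_one h𝔤
    have hN0 : (0 : ℝ) < Ideal.absNorm 𝔤 := by linarith
    have hp0 : 0 < (Ideal.absNorm 𝔤 : ℝ) ^ (-ε) := Real.rpow_pos_of_pos hN0 _
    obtain ⟨φ, hφ⟩ := rcp χ ψ
    have hrφ : Rl φ.χ := rl_mul hr hr' hφ
    by_cases hφn : φ.Non
    · left
      have hfg : 𝔣 * 𝔤 ≠ ⊥ := mul_ne_zero h𝔣 h𝔤
      have h1 : ∀ z : ℝ, 1 ≤ z → 1 ≤ P * (Lm (ar ψ.χ) 1 * Lm (ar φ.χ) 1) * z ^ (1 - β) +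
          M * (Ideal.absNorm 𝔤 : ℝ) ^ (2 * A) * z ^ (-τ) := by
        intro z hz
        have h2 := hfour 𝔤 h𝔤 ψ hn' hr' φ hφn hrφ z hz
        rw [← hP, ← hτ] at h2
        have h3 := sz1 (pos4 hr hr' hrφ fun v => rl_re hr hr' hφ v.asIdeal)
          (mul_one' _ _ (mul_one' _ _ (ar_one _) (ar_one _)) (mul_one' _ _ (ar_one _) (ar_one _)))
          β hz
        have h4 := (abs_le.1 h2).2
        have h5 : Sz (tw β ((eK K * ar χ.χ) * (ar ψ.χ * ar φ.χ))) z =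
            Sz (tw β ((ar (lbd_triv K) * ar χ.χ) * (ar ψ.χ * ar φ.χ))) z := rfl
        linarith
      have hX : (1 : ℝ) ≤ (Ideal.absNorm 𝔤 : ℝ) ^ (2 * A) := one_le_pow₀ hN'
      have h2 := finl hP0 (by linarith [hβ.1] : 1 - β ≤ ω₀) hτ0 hM hX h1
      have hLφ : |Lm (ar φ.χ) 1| ≤ U * (Ideal.absNorm (𝔣 * 𝔤) : ℝ) ^ (ε / 2) := by
        have hNfg := nf_one hfg
        refine lm_lim (P := fun x => |x| ≤ U * (Ideal.absNorm (𝔣 * 𝔤) : ℝ) ^ (ε / 2))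
          (Q := C * (Ideal.absNorm (𝔣 * 𝔤) : ℝ) ^ A) (δ := 2 * θ)
          (by positivity) (by linarith) (by linarith) (h.sv _ hfg φ hφn hrφ)
          (isClosed_le continuous_abs continuous_const) fun σ hσ hσ2 => ?_
        have h3 := hup _ hfg φ hφn σ hσ hσ2
        rw [pw_zero, lmn hrφ hσ] at h3
        exact h3
      have e1 : (Ideal.absNorm (𝔣 * 𝔤) : ℝ) ^ (ε / 2) =
          (Ideal.absNorm 𝔣 : ℝ) ^ (ε / 2) * (Ideal.absNorm 𝔤 : ℝ) ^ (ε / 2) := by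
        rw [map_mul, Nat.cast_mul, Real.mul_rpow (by linarith) (by linarith)]
      rw [e1] at hLφ
      have hψ0 := hge 𝔤 h𝔤 ψ hn' hr'
      have h3 : Lm (ar ψ.χ) 1 * Lm (ar φ.χ) 1 ≤ Lm (ar ψ.χ) 1 *
          (U * ((Ideal.absNorm 𝔣 : ℝ) ^ (ε / 2) * (Ideal.absNorm 𝔤 : ℝ) ^ (ε / 2))) :=
        mul_le_mul_of_nonneg_left ((le_abs_self _).trans hLφ) hψ0
      have e2 : ((Ideal.absNorm 𝔤 : ℝ) ^ (2 * A)) ^ (-(ω₀ / τ)) =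
          (Ideal.absNorm 𝔤 : ℝ) ^ (-(2 * (A : ℝ) * (ω₀ / τ))) := by
        rw [← Real.rpow_natCast, ← Real.rpow_mul hN0.le]
        congr 1
        push_cast
        ring
      rw [e2] at h2
      have h4 : (Ideal.absNorm 𝔤 : ℝ) ^ (-(ε / 2)) ≤
          (Ideal.absNorm 𝔤 : ℝ) ^ (-(2 * (A : ℝ) * (ω₀ / τ))) :=
        Real.rpow_le_rpow_of_exponent_le hN' (by linarith)
      have e3 : (Ideal.absNorm 𝔤 : ℝ) ^ (-ε) =
          (Ideal.absNorm 𝔤 : ℝ) ^ (-(ε / 2)) / (Ideal.absNorm 𝔤 : ℝ) ^ (ε / 2) := by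
        rw [Real.rpow_neg hN0.le, Real.rpow_neg hN0.le, div_eq_mul_inv, ← mul_inv,
          ← Real.rpow_add hN0]
        congr 2
        ring
      have hAp : 0 < (2 * M) ^ (ω₀ / τ) := Real.rpow_pos_of_pos (by linarith) _
      have hBp : 0 < (Ideal.absNorm 𝔤 : ℝ) ^ (ε / 2) := Real.rpow_pos_of_pos hN0 _
      have hCp : 0 < (Ideal.absNorm 𝔣 : ℝ) ^ (ε / 2) := Real.rpow_pos_of_pos (by linarith) _
      have hU0 : 0 < U := by linarith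
      have h5 : 1 / (2 * P * (2 * M) ^ (ω₀ / τ)) * (Ideal.absNorm 𝔤 : ℝ) ^ (-(ε / 2)) ≤
          Lm (ar ψ.χ) 1 *
          (U * ((Ideal.absNorm 𝔣 : ℝ) ^ (ε / 2) * (Ideal.absNorm 𝔤 : ℝ) ^ (ε / 2))) :=
        (mul_le_mul_of_nonneg_left h4 (by positivity)).trans (h2.trans h3)
      calc min c₁ c₂ * (Ideal.absNorm 𝔤 : ℝ) ^ (-ε) ≤ c₂ * (Ideal.absNorm 𝔤 : ℝ) ^ (-ε) :=
            mul_le_mul_of_nonneg_right (min_le_right _ _) hp0.le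
        _ = 1 / (2 * P * (2 * M) ^ (ω₀ / τ)) * (Ideal.absNorm 𝔤 : ℝ) ^ (-(ε / 2)) /
            (U * ((Ideal.absNorm 𝔣 : ℝ) ^ (ε / 2) * (Ideal.absNorm 𝔤 : ℝ) ^ (ε / 2))) := by
            rw [hc₂, e3]
            field_simp
        _ ≤ Lm (ar ψ.χ) 1 := by
            rw [div_le_iff₀ (by positivity)]
            exact h5
    · right
      intro σ hσ hσ2
      refine (mul_le_mul_of_nonneg_right (min_le_left _ _) hp0.le).trans ?_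
      refine hcm 𝔤 h𝔤 ψ hr' (fun v hv => ?_) σ hσ hσ2
      have hcop : IsCoprime v.asIdeal (𝔣 * 𝔤) := by
        have hm := v.isMaximal
        rw [Ideal.isCoprime_iff_sup_eq]
        by_contra hne
        have h1 : v.asIdeal ⊔ 𝔣 * 𝔤 = v.asIdeal :=
          (hm.eq_of_le hne le_sup_left).symm
        exact hv (Ideal.dvd_iff_le.2 (le_sup_right.trans h1.le))
      have h1 : φ.χ v.asIdeal = 1 := by
        by_contra h2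
        exact hφn ⟨v.asIdeal, v.ne_bot, hcop, h2⟩
      have h2 := rl_re hr hr' hφ v.asIdeal
      rw [h1, Complex.one_re] at h2
      have h3 := abs_le.1 (hr.abs v.asIdeal)
      have h4 := abs_le.1 (hr'.abs v.asIdeal)
      have h5 : ((χ.χ v.asIdeal).re - (ψ.χ v.asIdeal).re) ^ 2 ≤ 0 := by nlinarith
      have h6 : (χ.χ v.asIdeal).re - (ψ.χ v.asIdeal).re = 0 := by
        have := sq_nonneg ((χ.χ v.asIdeal).re - (ψ.χ v.asIdeal).re)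
        exact pow_eq_zero_iff (two_ne_zero) |>.1 (le_antisymm h5 this)
      linarith
  · push Not at hcase
    obtain ⟨a₀, M, ha₀, hM, htwo⟩ := two h (β := 1 - ω₀) (by linarith) (by linarith)
    have ha : a₀ ≤ 0 := by
      have h1 : κ / (1 - (1 - ω₀)) = κ / ω₀ := by
        congr 1
        ring
      rw [h1] at ha₀
      have h2 : 2 * C ≤ κ / ω₀ := by
        rw [le_div_iff₀ hω0]
        rw [le_div_iff₀ (by positivity)] at hωb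
        linarith
      linarith
    have hP0 : 0 < κ / (1 - (1 - ω₀)) := div_pos hκ (by linarith)
    have hAp : 0 < (2 * M) ^ (ω₀ / τ) := Real.rpow_pos_of_pos (by linarith) _
    refine ⟨1 / (2 * (κ / (1 - (1 - ω₀))) * (2 * M) ^ (ω₀ / τ)), by positivity,
      fun 𝔤 h𝔤 ψ hn' hr' hnv' => Or.inl ?_⟩
    have hN' := nf_one h𝔤
    have hN0 : (0 : ℝ) < Ideal.absNorm 𝔤 := by linarith
    have hX : (1 : ℝ) ≤ (Ideal.absNorm 𝔤 : ℝ) ^ A := one_le_pow₀ hN'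
    have h1 : ∀ z : ℝ, 1 ≤ z → 1 ≤ κ / (1 - (1 - ω₀)) * Lm (ar ψ.χ) 1 * z ^ (1 - (1 - ω₀)) +
          M * (Ideal.absNorm 𝔤 : ℝ) ^ A * z ^ (-τ) := by
      intro z hz
      have h2 := htwo 𝔤 h𝔤 ψ hn' hr' z hz
      have h3 := sz1 (pos2 hr') (mul_one' _ _ (ar_one _) (ar_one _)) (1 - ω₀) hz
      have h4 := (abs_le.1 h2).2
      have h5 : a₀ * Lm (ar ψ.χ) (1 - ω₀) ≤ 0 :=
        mul_nonpos_of_nonpos_of_nonneg ha (hcase 𝔤 ψ h𝔤 hn' hr' hnv')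
      have h6 : z ^ (-(θ ^ 2 / 8)) ≤ z ^ (-τ) := Real.rpow_le_rpow_of_exponent_le hz (by linarith)
      have h7 : M * (Ideal.absNorm 𝔤 : ℝ) ^ A * z ^ (-(θ ^ 2 / 8)) ≤
          M * (Ideal.absNorm 𝔤 : ℝ) ^ A * z ^ (-τ) :=
        mul_le_mul_of_nonneg_left h6 (by positivity)
      have h8 : Sz (tw (1 - ω₀) (eK K * ar ψ.χ)) z =
          Sz (tw (1 - ω₀) (ar (lbd_triv K) * ar ψ.χ)) z := rfl
      linarith
    have h2 := finl hP0 (by linarith : 1 - (1 - ω₀) ≤ ω₀) hτ0 hM hX h1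
    refine le_trans ?_ h2
    refine mul_le_mul_of_nonneg_left ?_ (by positivity)
    rw [← Real.rpow_natCast, ← Real.rpow_mul hN0.le]
    refine Real.rpow_le_rpow_of_exponent_le hN' ?_
    have h3 : 0 ≤ (A : ℝ) * (ω₀ / τ) := by positivity
    nlinarith

/-- SIEGEL'S THEOREM over a fixed number field -/
theorem sieg {n : ℕ} (hn : 0 < n) (hK : TC K n) {ε : ℝ} (hε : 0 < ε) : ∃ c : ℝ, 0 < c ∧
    ∀ 𝔤 : Ideal (𝓞 K), 𝔤 ≠ ⊥ → ∀ ψ : RC K 𝔤, ψ.Non → Rl ψ.χ → Nv ψ.χ →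
      ∀ σ : ℝ, 1 < σ → σ ≤ 2 →
        c * (Ideal.absNorm 𝔤 : ℝ) ^ (-ε) ≤ ‖LSeries (lbf ψ.χ) (σ : ℂ)‖ := by
  obtain ⟨κ, C, θ, A, h⟩ := cx K
  obtain ⟨c, hc, h1⟩ := s1 hn hK h (half_pos hε)
  obtain ⟨c', hc', h2⟩ := rgt hn hK h (half_pos hε) hc
  refine ⟨min c c', lt_min hc hc', fun 𝔤 h𝔤 ψ hn' hr hnv σ hσ hσ2 => ?_⟩
  have hN := nf_one h𝔤
  have hp0 : 0 < (Ideal.absNorm 𝔤 : ℝ) ^ (-ε) := Real.rpow_pos_of_pos (by linarith) _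
  rcases h1 𝔤 h𝔤 ψ hn' hr hnv with h3 | h3
  · have h4 := h2 𝔤 h𝔤 ψ hn' hr h3 σ hσ hσ2
    rw [show 2 * (ε / 2) = ε by ring] at h4
    exact (mul_le_mul_of_nonneg_right (min_le_right _ _) hp0.le).trans h4
  · have h4 := h3 σ hσ hσ2
    refine le_trans ?_ h4
    refine mul_le_mul (min_le_left _ _) ?_ hp0.le hc.le
    exact Real.rpow_le_rpow_of_exponent_le hN (by linarith)

end H1.P2
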