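import Pool.Agent.H1.P2.Zt
import Pool.Agent.H1.GS.Icg

/-!
# H1-P2-TF: the two-fold and the four-fold product at an exponent `β < 1`

`two`: `1 * χ`. `four`: `(1 * χ) * (ψ * φ)`.
-/

set_option autoImplicit false

open scoped NumberField

noncomputable section

namespace H1.P2

open Finset Filter Topology H63.MA H1.PN H57.AN H57.SL

variable (K : Type) [Field K] [NumberField K]

variable {K} in
theorem ar_le {χ : Ideal (𝓞 K) →*₀ ℂ} (h : Rl χ) (n : ℕ) : |ar χ n| ≤ eK K n := by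
  show |(lbf χ n).re| ≤ (lbf (lbd_triv K) n).re
  unfold lbf
  rw [Complex.re_sum, Complex.re_sum]
  refine (abs_sum_le_sum_abs _ _).trans (sum_le_sum fun I _ => ?_)
  show |(χ I).re| ≤ (if I = ⊥ then (0 : ℂ) else 1).re
  by_cases hI : I = ⊥
  · have h0 : χ I = 0 := by
      rw [hI]
      exact map_zero χ
    rw [if_pos hI, h0]
    simp
  · rw [if_neg hI]
    exact h.abs I

theorem absm (a b : ArithmeticFunction ℝ) (N : ℕ) :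
    ∑ n ∈ Ioc 0 N, |(a * b) n| ≤ (∑ n ∈ Ioc 0 N, |a n|) * ∑ n ∈ Ioc 0 N, |b n| := by
  obtain ⟨A, hA⟩ : ∃ A : ArithmeticFunction ℝ, ∀ n, A n = |a n| := ⟨⟨fun n => |a n|, by simp⟩, fun _ => rfl⟩
  obtain ⟨B, hB⟩ : ∃ B : ArithmeticFunction ℝ, ∀ n, B n = |b n| := ⟨⟨fun n => |b n|, by simp⟩, fun _ => rfl⟩
  have h1 : ∀ n, |(a * b) n| ≤ (A * B) n := by
    intro n
    rw [ArithmeticFunction.mul_apply, ArithmeticFunction.mul_apply]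
    refine (abs_sum_le_sum_abs _ _).trans (le_of_eq (sum_congr rfl fun p _ => ?_))
    rw [abs_mul, hA, hB]
  refine (sum_le_sum fun n _ => h1 n).trans ?_
  rw [ArithmeticFunction.sum_Ioc_mul_eq_sum_sum, sum_mul]
  refine sum_le_sum fun n _ => ?_
  rw [hA]
  refine mul_le_mul_of_nonneg_left ?_ (abs_nonneg _)
  refine (sum_le_sum_of_subset_of_nonneg (Ioc_subset_Ioc le_rfl (Nat.div_le_self N n))
    fun m _ _ => by rw [hB]; exact abs_nonneg _).trans (le_of_eq (sum_congr rfl fun m _ => hB m))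

variable {K} in
theorem tw_abs {χ : Ideal (𝓞 K) →*₀ ℂ} (h : Rl χ) (β : ℝ) (N : ℕ) :
    ∑ n ∈ Ioc 0 N, |tw β (ar χ) n| ≤ ps (eK K) β N := by
  unfold ps
  refine sum_le_sum fun n _ => ?_
  rw [tw_apply, abs_mul, abs_of_nonneg (a := (n : ℝ) ^ (-β)) (Real.rpow_nonneg (Nat.cast_nonneg _) _)]
  exact mul_le_mul_of_nonneg_right (ar_le h n) (Real.rpow_nonneg (Nat.cast_nonneg _) _)

/-- the constants of `K` -/
structure Cx (κ C θ : ℝ) (A : ℕ) : Prop where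
  k0 : 0 < κ
  c1 : 1 ≤ C
  t0 : 0 < θ
  t1 : θ ≤ 1 / 8
  main : ∀ β : ℝ, 1 - θ ≤ β → β < 1 → ∃ a₀ : ℝ, a₀ ≤ C - κ / (1 - β) ∧
    ∀ z : ℝ, 1 ≤ z → |Sz (tw β (eK K)) z - κ / (1 - β) * z ^ (1 - β) - a₀| ≤ C * z ^ (-θ)
  b0 : ∀ 𝔣 : Ideal (𝓞 K), 𝔣 ≠ ⊥ → ∀ χ : RC K 𝔣, χ.Non → Rl χ.χ → ∀ β : ℝ, 1 - θ ≤ β → β ≤ 1 →
    ∀ z : ℝ, 1 ≤ z → |ps (ar χ.χ) β ⌊z⌋₊ - Lm (ar χ.χ) β| ≤
      C * (Ideal.absNorm 𝔣 : ℝ) ^ A * z ^ (-θ)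
  lm : ∀ 𝔣 : Ideal (𝓞 K), 𝔣 ≠ ⊥ → ∀ χ : RC K 𝔣, χ.Non → Rl χ.χ → ∀ β : ℝ, 1 - θ ≤ β → β ≤ 1 →
    |Lm (ar χ.χ) β| ≤ C * (Ideal.absNorm 𝔣 : ℝ) ^ A
  sv : ∀ 𝔣 : Ideal (𝓞 K), 𝔣 ≠ ⊥ → ∀ χ : RC K 𝔣, χ.Non → Rl χ.χ →
    Sv (ar χ.χ) (C * (Ideal.absNorm 𝔣 : ℝ) ^ A) (2 * θ)

variable {K} in
theorem nf_one {𝔣 : Ideal (𝓞 K)} (h : 𝔣 ≠ ⊥) : (1 : ℝ) ≤ Ideal.absNorm 𝔣 := by
  have : Ideal.absNorm 𝔣 ≠ 0 := by
    rw [Ne, Ideal.absNorm_eq_zero_iff]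
    exact h
  exact_mod_cast Nat.one_le_iff_ne_zero.2 this

theorem cx : ∃ (κ C θ : ℝ) (A : ℕ), Cx K κ C θ A := by
  obtain ⟨κ, C₁, δ₁, hκ, hC₁, hδ₁, hδ₁', hz⟩ := zk K
  obtain ⟨C₂, A, δ₂, hC₂, hδ₂, hδ₂', hic⟩ := H1.GS.icg (Module.finrank ℚ K)
  obtain ⟨δ, hδ⟩ : ∃ δ : ℝ, δ = min δ₁ δ₂ := ⟨_, rfl⟩
  have hδ0 : 0 < δ := by rw [hδ]; exact lt_min hδ₁ hδ₂
  have hδa : δ ≤ δ₁ := by rw [hδ]; exact min_le_left _ _
  have hδb : δ ≤ δ₂ := by rw [hδ]; exact min_le_right _ _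
  obtain ⟨C₃, hC₃⟩ : ∃ C₃ : ℝ, C₃ = C₂ * H36.QA.dd K ^ A := ⟨_, rfl⟩
  have hdd : 1 ≤ H36.QA.dd K := H36.QA.one_le_dd K
  have hC₃1 : 1 ≤ C₃ := by
    rw [hC₃]
    exact one_le_mul_of_one_le_of_one_le hC₂ (one_le_pow₀ hdd)
  obtain ⟨c, hc⟩ : ∃ c : ℝ, c = 2 * (2 + 2 / δ) := ⟨_, rfl⟩
  have hc1 : 1 ≤ c := by
    rw [hc]
    have : 0 ≤ 2 / δ := by positivity
    linarith
  have hSv : ∀ 𝔣 : Ideal (𝓞 K), 𝔣 ≠ ⊥ → ∀ χ : RC K 𝔣, χ.Non → Rl χ.χ →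
      Sv (ar χ.χ) (C₃ * (Ideal.absNorm 𝔣 : ℝ) ^ A) δ := by
    intro 𝔣 h𝔣 χ hn hr n hn1
    have hn0 : (1 : ℝ) ≤ n := by exact_mod_cast hn1
    have h1 := hic K rfl 𝔣 h𝔣 χ hn n hn0
    have h2 := lbf_partial (K := K) (fun I => χ.χ I) (n : ℝ)
    rw [Nat.floor_natCast] at h2
    have e : Ioc 0 n = Icc 1 n := by
      ext x
      simp only [mem_Ioc, mem_Icc]
      omega
    have h3 : ∑ k ∈ Ioc 0 n, ar χ.χ k = (∑ I ∈ IN K (n : ℝ), χ.χ I).re := by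
      rw [← h2, Complex.re_sum, e]
      rfl
    rw [h3]
    refine (Complex.abs_re_le_norm _).trans (h1.trans ?_)
    have h4 : C₂ * (H36.QA.dd K * (Ideal.absNorm 𝔣 : ℝ)) ^ A = C₃ * (Ideal.absNorm 𝔣 : ℝ) ^ A := by
      rw [hC₃, mul_pow]
      ring
    rw [h4]
    have hN := nf_one h𝔣
    exact mul_le_mul_of_nonneg_left (Real.rpow_le_rpow_of_exponent_le hn0 (by linarith))
      (by positivity)
  have hkey : ∀ β : ℝ, 1 - δ / 2 ≤ β → β ≤ 1 → 0 ≤ β ∧ 0 < β + δ - 1 ∧ δ / 2 ≤ β + δ - 1 ∧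
      β + δ - 1 ≤ 1 ∧ 2 * (2 + β / (β + δ - 1)) ≤ c := by
    intro β hβ hβ1
    have h1 : 0 < β + δ - 1 := by linarith
    refine ⟨by linarith, h1, by linarith, by linarith, ?_⟩
    have h2 : β / (β + δ - 1) ≤ 2 / δ := by
      rw [div_le_div_iff₀ h1 hδ0]
      nlinarith
    rw [hc]
    linarith
  refine ⟨κ, C₁ + 1 + c * C₃, δ / 2, A, hκ, ?_, by linarith, by linarith, ?_, ?_, ?_, ?_⟩
  · have : 0 ≤ c * C₃ := by positivity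
    linarith
  · intro β hβ hβ1
    obtain ⟨a₀, h1, h2⟩ := hz β (by linarith) hβ1
    refine ⟨a₀, ?_, fun z hz1 => (h2 z hz1).trans ?_⟩
    · have : 0 ≤ c * C₃ := by positivity
      linarith
    · have h3 : z ^ (-(δ₁ / 2)) ≤ z ^ (-(δ / 2)) :=
        Real.rpow_le_rpow_of_exponent_le hz1 (by linarith)
      have h4 : 0 ≤ c * C₃ := by positivity
      exact mul_le_mul (by linarith) h3 (Real.rpow_nonneg (by linarith) _) (by linarith)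
  · intro 𝔣 h𝔣 χ hn hr β hβ hβ1 z hz1
    obtain ⟨k1, k2, k3, k4, k5⟩ := hkey β hβ hβ1
    have hN := nf_one h𝔣
    have hQ : 0 ≤ C₃ * (Ideal.absNorm 𝔣 : ℝ) ^ A := by positivity
    refine (lm_z hQ (hSv 𝔣 h𝔣 χ hn hr) k1 rfl k2 k4 hz1).trans ?_
    have h3 : z ^ (-(β + δ - 1)) ≤ z ^ (-(δ / 2)) :=
      Real.rpow_le_rpow_of_exponent_le hz1 (by linarith)
    calc 2 * (2 + β / (β + δ - 1)) * (C₃ * (Ideal.absNorm 𝔣 : ℝ) ^ A) * z ^ (-(β + δ - 1))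
        ≤ c * (C₃ * (Ideal.absNorm 𝔣 : ℝ) ^ A) * z ^ (-(δ / 2)) := by
          refine mul_le_mul (mul_le_mul_of_nonneg_right k5 hQ) h3
            (Real.rpow_nonneg (by linarith) _) (by positivity)
      _ = c * C₃ * (Ideal.absNorm 𝔣 : ℝ) ^ A * z ^ (-(δ / 2)) := by ring
      _ ≤ (C₁ + 1 + c * C₃) * (Ideal.absNorm 𝔣 : ℝ) ^ A * z ^ (-(δ / 2)) := by
          refine mul_le_mul_of_nonneg_right (mul_le_mul_of_nonneg_right (by linarith)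
            (by positivity)) (Real.rpow_nonneg (by linarith) _)
  · intro 𝔣 h𝔣 χ hn hr β hβ hβ1
    obtain ⟨k1, k2, k3, k4, k5⟩ := hkey β hβ hβ1
    have hN := nf_one h𝔣
    have hQ : 0 ≤ C₃ * (Ideal.absNorm 𝔣 : ℝ) ^ A := by positivity
    have h1 := lm_abs hQ (hSv 𝔣 h𝔣 χ hn hr) k1 rfl k2
    rw [ar_one, abs_one] at h1
    have h2 : (2 + β / (β + δ - 1)) * (C₃ * (Ideal.absNorm 𝔣 : ℝ) ^ A) ≤
        c * (C₃ * (Ideal.absNorm 𝔣 : ℝ) ^ A) := by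
      refine mul_le_mul_of_nonneg_right ?_ hQ
      have : 0 ≤ 2 + β / (β + δ - 1) := by positivity
      linarith
    have h3 : (1 : ℝ) ≤ (Ideal.absNorm 𝔣 : ℝ) ^ A := one_le_pow₀ hN
    have h4 : (C₁ + 1 + c * C₃) * (Ideal.absNorm 𝔣 : ℝ) ^ A =
        C₁ * (Ideal.absNorm 𝔣 : ℝ) ^ A + (Ideal.absNorm 𝔣 : ℝ) ^ A +
          c * (C₃ * (Ideal.absNorm 𝔣 : ℝ) ^ A) := by ring
    rw [h4]
    have h5 : 0 ≤ C₁ * (Ideal.absNorm 𝔣 : ℝ) ^ A := by positivity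
    linarith
  · intro 𝔣 h𝔣 χ hn hr
    have hN := nf_one h𝔣
    have e : 2 * (δ / 2) = δ := by ring
    rw [e]
    intro n hn1
    refine (hSv 𝔣 h𝔣 χ hn hr n hn1).trans ?_
    refine mul_le_mul_of_nonneg_right (mul_le_mul_of_nonneg_right ?_ (by positivity))
      (Real.rpow_nonneg (Nat.cast_nonneg _) _)
    have : C₃ ≤ c * C₃ := le_mul_of_one_le_left (by linarith) hc1
    linarith

variable {K}

theorem ps_w (f : ArithmeticFunction ℝ) (β ω : ℝ) (N : ℕ) :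
    ∑ n ∈ Ioc 0 N, tw β f n * (n : ℝ) ^ (-ω) = ps f (β + ω) N := by
  unfold ps
  refine sum_congr rfl fun n hn => ?_
  have hn0 : (0 : ℝ) < n := by exact_mod_cast (mem_Ioc.1 hn).1
  rw [tw_apply, mul_assoc, ← Real.rpow_add hn0]
  congr 2
  ring

theorem z_two {D z η : ℝ} (hD : 0 ≤ D) (hz : 1 ≤ z) (hη : η ≤ 2) : D * z ^ η ≤ D * z ^ (2 : ℝ) :=
  mul_le_mul_of_nonneg_left (Real.rpow_le_rpow_of_exponent_le hz hη) hD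

/-- the two-fold product -/
theorem two {κ C θ : ℝ} {A : ℕ} (h : Cx K κ C θ A) {β : ℝ} (hβ : 1 - θ ^ 2 / 16 ≤ β)
    (hβ1 : β < 1) : ∃ a₀ M : ℝ, a₀ ≤ C - κ / (1 - β) ∧ 1 ≤ M ∧
      ∀ 𝔣 : Ideal (𝓞 K), 𝔣 ≠ ⊥ → ∀ χ : RC K 𝔣, χ.Non → Rl χ.χ → ∀ z : ℝ, 1 ≤ z →
        |Sz (tw β (eK K * ar χ.χ)) z - κ / (1 - β) * Lm (ar χ.χ) 1 * z ^ (1 - β) -
          a₀ * Lm (ar χ.χ) β| ≤ M * (Ideal.absNorm 𝔣 : ℝ) ^ A * z ^ (-(θ ^ 2 / 8)) := by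
  have ht0 := h.t0
  have ht1 := h.t1
  have hκ := h.k0
  have hC := h.c1
  have hθβ : 1 - θ ≤ β := by nlinarith
  obtain ⟨a₀, ha₀, hmain⟩ := h.main β hθβ hβ1
  obtain ⟨D, hD, hde⟩ := de K (η := θ ^ 2 / 8) (by positivity)
  have h2t : θ ^ 2 / 8 ≤ 2 := by nlinarith
  refine ⟨a₀, |κ / (1 - β)| * C + |a₀| * C + C * D + 2 * C * D, ha₀, ?_, ?_⟩
  · have h1 : 1 ≤ C * D := one_le_mul_of_one_le_of_one_le hC hD
    have h2 : 0 ≤ |κ / (1 - β)| * C := by positivity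
    have h3 : 0 ≤ |a₀| * C := by positivity
    nlinarith
  intro 𝔣 h𝔣 χ hn hr z hz
  have hN := nf_one h𝔣
  obtain ⟨Q, hQ⟩ : ∃ Q : ℝ, Q = C * (Ideal.absNorm 𝔣 : ℝ) ^ A := ⟨_, rfl⟩
  have hNA : (1 : ℝ) ≤ (Ideal.absNorm 𝔣 : ℝ) ^ A := one_le_pow₀ hN
  have hQ0 : 0 ≤ Q := by rw [hQ]; positivity
  have h1 := hyp (a := tw β (eK K)) (b := tw β (ar χ.χ)) (l := κ / (1 - β)) (ω := 1 - β)
    (a₀ := a₀) (b₀ := Lm (ar χ.χ) β) (b₁ := Lm (ar χ.χ) 1) (E := C) (Q := Q) (D := D) (θ := θ)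
    (η := θ ^ 2 / 8) ht0 (by linarith) (by linarith) (by nlinarith) le_rfl (by linarith) hQ0
    (by linarith) hmain
    (fun z hz => by
      rw [sz_tw, hQ]
      exact h.b0 𝔣 h𝔣 χ hn hr β hθβ hβ1.le z hz)
    (fun z hz => by
      rw [ps_w, show β + (1 - β) = 1 by ring, hQ]
      exact h.b0 𝔣 h𝔣 χ hn hr 1 (by linarith) le_rfl z hz)
    (fun z hz => by
      have e : ∑ n ∈ Ioc 0 ⌊z⌋₊, |tw β (eK K) n| = ps (eK K) β ⌊z⌋₊ := by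
        unfold ps
        refine sum_congr rfl fun n _ => ?_
        rw [tw_apply, abs_of_nonneg]
        exact mul_nonneg (ek_nonneg K n) (Real.rpow_nonneg (Nat.cast_nonneg _) _)
      rw [e]
      exact hde β (by nlinarith) hβ1.le z hz)
    (fun z hz => (tw_abs hr β _).trans ((hde β (by nlinarith) hβ1.le z hz).trans
      (z_two (by linarith) hz h2t))) z hz
  rw [tw_mul]
  refine h1.trans ?_
  refine mul_le_mul_of_nonneg_right ?_ (Real.rpow_nonneg (by linarith) _)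
  have hCQ : C ≤ Q := by
    rw [hQ]
    exact le_mul_of_one_le_right (by linarith) hNA
  calc |κ / (1 - β)| * Q + |a₀| * Q + C * D + 2 * Q * D
      ≤ |κ / (1 - β)| * Q + |a₀| * Q + Q * D + 2 * Q * D := by
        have := mul_le_mul_of_nonneg_right hCQ (by linarith : (0 : ℝ) ≤ D)
        linarith
    _ = (|κ / (1 - β)| * C + |a₀| * C + C * D + 2 * C * D) * (Ideal.absNorm 𝔣 : ℝ) ^ A := by
        rw [hQ]
        ring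

/-- the product of two characters -/
theorem pair {κ C θ : ℝ} {A : ℕ} (h : Cx K κ C θ A) : ∃ M : ℝ, 1 ≤ M ∧
    ∀ β : ℝ, 1 - θ ^ 2 / 16 ≤ β → β ≤ 1 →
      ∀ 𝔣 : Ideal (𝓞 K), 𝔣 ≠ ⊥ → ∀ χ : RC K 𝔣, χ.Non → Rl χ.χ →
      ∀ 𝔤 : Ideal (𝓞 K), 𝔤 ≠ ⊥ → ∀ ψ : RC K 𝔤, ψ.Non → Rl ψ.χ → ∀ z : ℝ, 1 ≤ z →
        |Sz (tw β (ar χ.χ * ar ψ.χ)) z - Lm (ar χ.χ) β * Lm (ar ψ.χ) β| ≤
          M * (Ideal.absNorm 𝔣 * Ideal.absNorm 𝔤 : ℝ) ^ A * z ^ (-(θ ^ 2 / 8)) := by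
  have ht0 := h.t0
  have ht1 := h.t1
  have hC := h.c1
  obtain ⟨D, hD, hde⟩ := de K (η := θ ^ 2 / 8) (by positivity)
  have h2t : θ ^ 2 / 8 ≤ 2 := by nlinarith
  refine ⟨C * C + C * D + 2 * C * D, ?_, ?_⟩
  · have h1 : 1 ≤ C * C := one_le_mul_of_one_le_of_one_le hC hC
    have h2 : 0 ≤ C * D := by positivity
    nlinarith
  intro β hβ hβ1 𝔣 h𝔣 χ hn hr 𝔤 h𝔤 ψ hn' hr' z hz
  have hθβ : 1 - θ ≤ β := by nlinarith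
  have hN := nf_one h𝔣
  have hN' := nf_one h𝔤
  obtain ⟨x, hx⟩ : ∃ x : ℝ, x = (Ideal.absNorm 𝔣 : ℝ) ^ A := ⟨_, rfl⟩
  obtain ⟨y, hy⟩ : ∃ y : ℝ, y = (Ideal.absNorm 𝔤 : ℝ) ^ A := ⟨_, rfl⟩
  have hx1 : 1 ≤ x := by rw [hx]; exact one_le_pow₀ hN
  have hy1 : 1 ≤ y := by rw [hy]; exact one_le_pow₀ hN'
  have h1 := hyp (a := tw β (ar χ.χ)) (b := tw β (ar ψ.χ)) (l := 0) (ω := 0)
    (a₀ := Lm (ar χ.χ) β) (b₀ := Lm (ar ψ.χ) β) (b₁ := Lm (ar ψ.χ) β) (E := C * x) (Q := C * y)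
    (D := D) (θ := θ)
    (η := θ ^ 2 / 8) ht0 (by linarith) le_rfl (by positivity) le_rfl (by positivity) (by positivity)
    (by linarith)
    (fun z hz => by
      rw [zero_mul, sub_zero, sz_tw, hx]
      exact h.b0 𝔣 h𝔣 χ hn hr β hθβ hβ1 z hz)
    (fun z hz => by
      rw [sz_tw, hy]
      exact h.b0 𝔤 h𝔤 ψ hn' hr' β hθβ hβ1 z hz)
    (fun z hz => by
      rw [ps_w, add_zero, hy]
      exact h.b0 𝔤 h𝔤 ψ hn' hr' β hθβ hβ1 z hz)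
    (fun z hz => (tw_abs hr β _).trans (hde β (by nlinarith) hβ1 z hz))
    (fun z hz => (tw_abs hr' β _).trans ((hde β (by nlinarith) hβ1 z hz).trans
      (z_two (by linarith) hz h2t))) z hz
  rw [← tw_mul, zero_mul, zero_mul, sub_zero, abs_zero, zero_mul, zero_add] at h1
  refine h1.trans ?_
  refine mul_le_mul_of_nonneg_right ?_ (Real.rpow_nonneg (by linarith) _)
  have h2 := h.lm 𝔣 h𝔣 χ hn hr β hθβ hβ1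
  rw [← hx] at h2
  rw [mul_pow, ← hx, ← hy]
  have hxy : x ≤ x * y := le_mul_of_one_le_right (by linarith) hy1
  have hyx : y ≤ x * y := le_mul_of_one_le_left (by linarith) hx1
  have hC0 : 0 ≤ C := by linarith
  have hD0 : 0 ≤ D := by linarith
  calc |Lm (ar χ.χ) β| * (C * y) + C * x * D + 2 * (C * y) * D
      ≤ (C * x) * (C * y) + C * (x * y) * D + 2 * (C * (x * y)) * D := by
        gcongr
    _ = (C * C + C * D + 2 * C * D) * (x * y) := by ring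

/-- the four-fold product at a zero -/
theorem four {κ C θ : ℝ} {A : ℕ} (h : Cx K κ C θ A) {β : ℝ} (hβ : 1 - θ ^ 4 / 2048 ≤ β)
    (hβ1 : β < 1) {𝔣 : Ideal (𝓞 K)} (h𝔣 : 𝔣 ≠ ⊥) (χ : RC K 𝔣) (hn : χ.Non) (hr : Rl χ.χ)
    (hzero : Lm (ar χ.χ) β = 0) : ∃ M : ℝ, 1 ≤ M ∧
      ∀ 𝔤 : Ideal (𝓞 K), 𝔤 ≠ ⊥ → ∀ ψ : RC K 𝔤, ψ.Non → Rl ψ.χ →
      ∀ φ : RC K (𝔣 * 𝔤), φ.Non → Rl φ.χ → ∀ z : ℝ, 1 ≤ z →
        |Sz (tw β ((eK K * ar χ.χ) * (ar ψ.χ * ar φ.χ))) z -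
          κ / (1 - β) * Lm (ar χ.χ) 1 * (Lm (ar ψ.χ) 1 * Lm (ar φ.χ) 1) * z ^ (1 - β)| ≤
            M * (Ideal.absNorm 𝔤 : ℝ) ^ (2 * A) * z ^ (-(θ ^ 4 / 512)) := by
  have ht0 := h.t0
  have ht1 := h.t1
  have hκ := h.k0
  have hC := h.c1
  have hτ : θ ^ 4 / 2048 ≤ θ ^ 2 / 16 := by
    have h1 : θ ^ 4 = θ ^ 2 * θ ^ 2 := by ring
    have h2 : θ ^ 2 ≤ 1 := by nlinarith
    have h3 : 0 ≤ θ ^ 2 := sq_nonneg θ
    nlinarith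
  have hβ' : 1 - θ ^ 2 / 16 ≤ β := by linarith
  obtain ⟨a₀, M₁, ha₀, hM₁, htwo⟩ := two h hβ' hβ1
  obtain ⟨M₂, hM₂, hpair⟩ := pair h
  obtain ⟨D, hD, hde⟩ := de K (η := θ ^ 4 / 1024) (by positivity)
  have hβ4 : 1 - θ ^ 4 / 1024 / 2 ≤ β := by linarith
  have hN := nf_one h𝔣
  obtain ⟨x, hx⟩ : ∃ x : ℝ, x = (Ideal.absNorm 𝔣 : ℝ) ^ A := ⟨_, rfl⟩
  have hx1 : 1 ≤ x := by rw [hx]; exact one_le_pow₀ hN
  obtain ⟨l, hl⟩ : ∃ l : ℝ, l = κ / (1 - β) * Lm (ar χ.χ) 1 := ⟨_, rfl⟩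
  have h4t : θ ^ 4 / 1024 ≤ 1 := by
    have : θ ^ 4 ≤ 1 := pow_le_one₀ ht0.le (by linarith)
    linarith
  have hsq : ∀ z : ℝ, 1 ≤ z → (D * z ^ (θ ^ 4 / 1024)) * (D * z ^ (θ ^ 4 / 1024)) =
      D ^ 2 * z ^ (θ ^ 4 / 512) := by
    intro z hz
    have : z ^ (θ ^ 4 / 512) = z ^ (θ ^ 4 / 1024) * z ^ (θ ^ 4 / 1024) := by
      rw [← Real.rpow_add (by linarith)]
      congr 1
      ring
    rw [this]
    ring
  have hps0 : ∀ z : ℝ, 0 ≤ ps (eK K) β ⌊z⌋₊ := by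
    intro z
    unfold ps
    exact sum_nonneg fun n _ => mul_nonneg (ek_nonneg K n) (Real.rpow_nonneg (Nat.cast_nonneg _) _)
  have habs : ∀ z : ℝ, 1 ≤ z → ∀ f g : ArithmeticFunction ℝ,
      ∑ n ∈ Ioc 0 ⌊z⌋₊, |tw β f n| ≤ ps (eK K) β ⌊z⌋₊ →
      ∑ n ∈ Ioc 0 ⌊z⌋₊, |tw β g n| ≤ ps (eK K) β ⌊z⌋₊ →
      ∑ n ∈ Ioc 0 ⌊z⌋₊, |tw β (f * g) n| ≤ D ^ 2 * z ^ (θ ^ 4 / 512) := by
    intro z hz f g hf hg
    rw [tw_mul, ← hsq z hz]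
    refine (absm _ _ _).trans ?_
    have h1 := hde β hβ4 hβ1.le z hz
    exact mul_le_mul (hf.trans h1) (hg.trans h1) (sum_nonneg fun _ _ => abs_nonneg _)
      ((hps0 z).trans h1)
  have hel : ∀ N : ℕ, ∑ n ∈ Ioc 0 N, |tw β (eK K) n| ≤ ps (eK K) β N := by
    intro N
    unfold ps
    refine sum_le_sum fun n _ => ?_
    rw [tw_apply, abs_of_nonneg]
    exact mul_nonneg (ek_nonneg K n) (Real.rpow_nonneg (Nat.cast_nonneg _) _)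
  refine ⟨|l| * (M₂ * x) + (M₁ * x) * D ^ 2 + 2 * (M₂ * x) * D ^ 2, ?_, ?_⟩
  · have h1 : 1 ≤ (M₁ * x) * D ^ 2 := one_le_mul_of_one_le_of_one_le
      (one_le_mul_of_one_le_of_one_le hM₁ hx1) (one_le_pow₀ hD)
    have h2 : 0 ≤ |l| * (M₂ * x) := by positivity
    have h3 : 0 ≤ 2 * (M₂ * x) * D ^ 2 := by positivity
    linarith
  intro 𝔤 h𝔤 ψ hn' hr' φ hn'' hr'' z hz
  have hN' := nf_one h𝔤
  obtain ⟨y, hy⟩ : ∃ y : ℝ, y = (Ideal.absNorm 𝔤 : ℝ) ^ (2 * A) := ⟨_, rfl⟩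
  have hy1 : 1 ≤ y := by rw [hy]; exact one_le_pow₀ hN'
  have hfg : 𝔣 * 𝔤 ≠ ⊥ := mul_ne_zero h𝔣 h𝔤
  have hE : (Ideal.absNorm 𝔤 * Ideal.absNorm (𝔣 * 𝔤) : ℝ) ^ A = x * y := by
    rw [hx, hy, map_mul]
    push_cast
    rw [pow_mul, ← mul_pow]
    congr 1
    ring
  have hpr : ∀ β' : ℝ, 1 - θ ^ 2 / 16 ≤ β' → β' ≤ 1 → ∀ z : ℝ, 1 ≤ z →
      |Sz (tw β' (ar ψ.χ * ar φ.χ)) z - Lm (ar ψ.χ) β' * Lm (ar φ.χ) β'| ≤
        M₂ * (x * y) * z ^ (-(θ ^ 2 / 8)) := by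
    intro β' h1 h2 z hz
    have h3 := hpair β' h1 h2 𝔤 h𝔤 ψ hn' hr' (𝔣 * 𝔤) hfg φ hn'' hr'' z hz
    rwa [hE] at h3
  have h1 := hyp (a := tw β (eK K * ar χ.χ)) (b := tw β (ar ψ.χ * ar φ.χ)) (l := l) (ω := 1 - β)
    (a₀ := 0) (b₀ := Lm (ar ψ.χ) β * Lm (ar φ.χ) β) (b₁ := Lm (ar ψ.χ) 1 * Lm (ar φ.χ) 1)
    (E := M₁ * x) (Q := M₂ * (x * y)) (D := D ^ 2) (θ := θ ^ 2 / 8) (η := θ ^ 4 / 512)
    (by positivity) (by nlinarith) (by linarith) (by nlinarith [sq_nonneg (θ ^ 2)])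
    (by nlinarith [sq_nonneg (θ ^ 2)]) (by positivity) (by positivity) (by positivity)
    (fun z hz => by
      have h2 := htwo 𝔣 h𝔣 χ hn hr z hz
      rw [hzero, mul_zero] at h2
      rw [hl, hx]
      exact h2)
    (fun z hz => hpr β hβ' hβ1.le z hz)
    (fun z hz => by
      rw [ps_w, show β + (1 - β) = 1 by ring]
      exact hpr 1 (by nlinarith [sq_nonneg θ]) le_rfl z hz)
    (fun z hz => habs z hz _ _ (hel _) (tw_abs hr β _))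
    (fun z hz => (habs z hz _ _ (tw_abs hr' β _) (tw_abs hr'' β _)).trans
      (z_two (by positivity) hz (by linarith))) z hz
  rw [← tw_mul, zero_mul, sub_zero, abs_zero, zero_mul, add_zero,
    show (θ ^ 2 / 8) ^ 2 / 8 = θ ^ 4 / 512 by ring] at h1
  rw [← hl]
  refine h1.trans (mul_le_mul_of_nonneg_right ?_ (Real.rpow_nonneg (by linarith) _))
  rw [← hy]
  have h2 : M₁ * x * D ^ 2 ≤ M₁ * x * D ^ 2 * y := le_mul_of_one_le_right (by positivity) hy1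
  calc |l| * (M₂ * (x * y)) + M₁ * x * D ^ 2 + 2 * (M₂ * (x * y)) * D ^ 2
      ≤ |l| * (M₂ * (x * y)) + M₁ * x * D ^ 2 * y + 2 * (M₂ * (x * y)) * D ^ 2 := by linarith
    _ = (|l| * (M₂ * x) + M₁ * x * D ^ 2 + 2 * (M₂ * x) * D ^ 2) * y := by ring

end H1.P2
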