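import Pool.Agent.H1.P2.Ab
import Pool.Agent.H1.P2.Hy
import Pool.Agent.H1.P2.Po
import Pool.Agent.H57.SL.Wsm

/-!
# H1-P2-ZT: the zeta function of `K` at a real exponent `β < 1`

`tw β f n = f n n^(-β)`. `zk`: `∑_{N I ≤ z} (N I)^(-β) = κ z^(1-β) / (1-β) + a₀ + O(z^(-θ))` with `a₀ ≤ C - κ / (1-β)`. `de`: the sum is `≤ D z^η`.
-/

set_option autoImplicit false

open scoped NumberField

noncomputable section

namespace H1.P2

open Finset Filter Topology H63.MA H1.PN H57.AN H57.SL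

/-- the twist -/
def tw (β : ℝ) (f : ArithmeticFunction ℝ) : ArithmeticFunction ℝ :=
  ⟨fun n => f n * (n : ℝ) ^ (-β), by rw [ArithmeticFunction.map_zero, zero_mul]⟩

theorem tw_apply (β : ℝ) (f : ArithmeticFunction ℝ) (n : ℕ) : tw β f n = f n * (n : ℝ) ^ (-β) := rfl

theorem tw_mul (β : ℝ) (f g : ArithmeticFunction ℝ) : tw β (f * g) = tw β f * tw β g := by
  ext n
  rw [tw_apply, ArithmeticFunction.mul_apply, ArithmeticFunction.mul_apply, sum_mul]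
  refine sum_congr rfl fun p hp => ?_
  obtain ⟨hp1, hp2⟩ := Nat.mem_divisorsAntidiagonal.1 hp
  rw [tw_apply, tw_apply, ← hp1, Nat.cast_mul, Real.mul_rpow (Nat.cast_nonneg _) (Nat.cast_nonneg _)]
  ring

theorem sz_tw (β : ℝ) (f : ArithmeticFunction ℝ) (z : ℝ) : Sz (tw β f) z = ps f β ⌊z⌋₊ := rfl

theorem ps_add (f g : ℕ → ℝ) (β : ℝ) (N : ℕ) :
    ps (fun n => f n + g n) β N = ps f β N + ps g β N := by
  unfold ps
  rw [← sum_add_distrib]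
  exact sum_congr rfl fun n _ => add_mul _ _ _

theorem ps_smul (c : ℝ) (f : ℕ → ℝ) (β : ℝ) (N : ℕ) :
    ps (fun n => c * f n) β N = c * ps f β N := by
  unfold ps
  rw [mul_sum]
  exact sum_congr rfl fun n _ => mul_assoc _ _ _

/-- `z^ω - y^ω ≤ ω y^(ω-1) (z - y)` -/
theorem mvw {ω y z : ℝ} (hω0 : 0 ≤ ω) (hω1 : ω ≤ 1) (hy : 0 < y) (hyz : 0 ≤ z) :
    z ^ ω - y ^ ω ≤ ω * y ^ (ω - 1) * (z - y) := by
  have h1 : (1 + (z - y) / y) ^ ω ≤ 1 + ω * ((z - y) / y) := by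
    refine rpow_one_add_le_one_add_mul_self ?_ hω0 hω1
    rw [le_div_iff₀ hy]
    linarith
  have h2 : z = y * (1 + (z - y) / y) := by
    field_simp
    ring
  have h3 : 0 ≤ 1 + (z - y) / y := by
    have : 1 + (z - y) / y = z / y := by
      field_simp
      ring
    rw [this]
    positivity
  have h4 : z ^ ω = y ^ ω * (1 + (z - y) / y) ^ ω := by
    rw [← Real.mul_rpow hy.le h3, ← h2]
  have h5 : y ^ (ω - 1) = y ^ ω / y := by rw [Real.rpow_sub hy, Real.rpow_one]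
  rw [h4, h5]
  have h6 := mul_le_mul_of_nonneg_left h1 (Real.rpow_nonneg hy.le ω)
  have h7 : ω * (y ^ ω / y) * (z - y) = y ^ ω * (ω * ((z - y) / y)) := by ring
  rw [h7]
  nlinarith

/-- Euler-Maclaurin -/
theorem zet {β : ℝ} (hβ0 : 0 < β) (hβ1 : β < 1) : ∃ zt : ℝ, zt ≤ 1 - 1 / (1 - β) ∧
    ∀ z : ℝ, 1 ≤ z → |ps (fun _ => 1) β ⌊z⌋₊ - z ^ (1 - β) / (1 - β) - zt| ≤ 4 * z ^ (-β) := by
  obtain ⟨ω, hω⟩ : ∃ ω : ℝ, ω = 1 - β := ⟨_, rfl⟩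
  have hω0 : 0 < ω := by linarith
  have hω1 : ω ≤ 1 := by linarith
  obtain ⟨u, hu⟩ : ∃ u : ℕ → ℝ, ∀ N, u N = ps (fun _ => 1) β N - (N : ℝ) ^ ω / ω := ⟨_, fun _ => rfl⟩
  have hstep : ∀ N : ℕ, 1 ≤ N → u (N + 1) ≤ u N ∧ u N - u (N + 1) ≤
      (N : ℝ) ^ (-β) - ((N : ℝ) + 1) ^ (-β) := by
    intro N hN
    have hN0 : (1 : ℝ) ≤ N := by exact_mod_cast hN
    have hps : ps (fun _ => 1) β (N + 1) = ps (fun _ => 1) β N + ((N : ℝ) + 1) ^ (-β) := by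
      unfold ps
      rw [Finset.sum_Ioc_succ_top (by omega)]
      push_cast
      ring
    have h1 := mvw hω0.le hω1 (y := N) (z := (N : ℝ) + 1) (by linarith) (by linarith)
    have h2 := mvw hω0.le hω1 (y := (N : ℝ) + 1) (z := N) (by linarith) (by linarith)
    have e1 : ω - 1 = -β := by linarith
    rw [e1] at h1 h2
    have e2 : (N : ℝ) + 1 - N = 1 := by ring
    have e3 : (N : ℝ) - ((N : ℝ) + 1) = -1 := by ring
    rw [e2, mul_one] at h1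
    rw [e3] at h2
    have h3 : (((N : ℝ) + 1) ^ ω - (N : ℝ) ^ ω) / ω ≤ (N : ℝ) ^ (-β) := by
      rw [div_le_iff₀ hω0]
      linarith
    have h4 : ((N : ℝ) + 1) ^ (-β) ≤ (((N : ℝ) + 1) ^ ω - (N : ℝ) ^ ω) / ω := by
      rw [le_div_iff₀ hω0]
      linarith
    rw [sub_div] at h3 h4
    rw [hu, hu, hps]
    push_cast
    constructor <;> linarith
  have hanti : ∀ N M : ℕ, 1 ≤ N → N ≤ M → u M ≤ u N ∧ u N - u M ≤ (N : ℝ) ^ (-β) - (M : ℝ) ^ (-β) := by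
    intro N M hN h
    induction M, h using Nat.le_induction with
    | base => simp
    | succ M hM ih =>
      obtain ⟨h1, h2⟩ := hstep M (hN.trans hM)
      push_cast
      constructor
      · exact h1.trans ih.1
      · linarith [ih.2]
  have hc : CauchySeq (fun N : ℕ => u (N + 1)) := by
    refine cauchySeq_of_le_tendsto_0' (fun N : ℕ => ((N + 1 : ℕ) : ℝ) ^ (-β))
      (fun n m hnm => ?_) ((tendsto_add_atTop_iff_nat 1).2 (rz hβ0))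
    obtain ⟨h1, h2⟩ := hanti (n + 1) (m + 1) (by omega) (by omega)
    rw [Real.dist_eq, abs_of_nonneg (by linarith)]
    have h3 : 0 ≤ ((m + 1 : ℕ) : ℝ) ^ (-β) := Real.rpow_nonneg (Nat.cast_nonneg _) _
    linarith
  obtain ⟨l, hl⟩ := cauchySeq_tendsto_of_complete hc
  have hl' : Tendsto u atTop (𝓝 l) := (tendsto_add_atTop_iff_nat 1).1 hl
  have hlN : ∀ N : ℕ, 1 ≤ N → l ≤ u N ∧ u N - l ≤ (N : ℝ) ^ (-β) := by
    intro N hN
    constructor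
    · refine le_of_tendsto hl' ?_
      filter_upwards [eventually_ge_atTop N] with M hM
      exact (hanti N M hN hM).1
    · have h1 : Tendsto (fun M => u N - u M) atTop (𝓝 (u N - l)) := tendsto_const_nhds.sub hl'
      refine le_of_tendsto h1 ?_
      filter_upwards [eventually_ge_atTop N] with M hM
      have h2 := (hanti N M hN hM).2
      have h3 : 0 ≤ (M : ℝ) ^ (-β) := Real.rpow_nonneg (Nat.cast_nonneg _) _
      linarith
  refine ⟨l, ?_, fun z hz => ?_⟩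
  · have h1 := (hlN 1 le_rfl).1
    rw [hu, ps_one, Nat.cast_one, Real.one_rpow] at h1
    rwa [← hω]
  · have h1 : 1 ≤ ⌊z⌋₊ := Nat.le_floor (by simpa using hz)
    have h1' : (1 : ℝ) ≤ ⌊z⌋₊ := by exact_mod_cast h1
    have h2 := Nat.floor_le (by linarith : 0 ≤ z)
    have h3 := Nat.lt_floor_add_one z
    obtain ⟨h4, h5⟩ := hlN ⌊z⌋₊ h1
    have h6 := flz hz hβ0.le hβ1.le
    have h7 : (⌊z⌋₊ : ℝ) ^ ω ≤ z ^ ω := Real.rpow_le_rpow (by linarith) h2 hω0.le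
    have h8 : z ^ ω - (⌊z⌋₊ : ℝ) ^ ω ≤ ω * (⌊z⌋₊ : ℝ) ^ (-β) := by
      have h9 := mvw hω0.le hω1 (y := (⌊z⌋₊ : ℝ)) (z := z) (by linarith) (by linarith)
      have e1 : ω - 1 = -β := by linarith
      rw [e1] at h9
      refine h9.trans ?_
      have h10 : 0 ≤ ω * (⌊z⌋₊ : ℝ) ^ (-β) := by positivity
      nlinarith
    have h9 : (z ^ ω - (⌊z⌋₊ : ℝ) ^ ω) / ω ≤ (⌊z⌋₊ : ℝ) ^ (-β) := by
      rw [div_le_iff₀ hω0]
      linarith
    have h10 : 0 ≤ (z ^ ω - (⌊z⌋₊ : ℝ) ^ ω) / ω := div_nonneg (by linarith) hω0.le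
    rw [hu] at h4 h5
    rw [← hω]
    have e2 : ps (fun _ => 1) β ⌊z⌋₊ - z ^ ω / ω - l =
        (ps (fun _ => 1) β ⌊z⌋₊ - (⌊z⌋₊ : ℝ) ^ ω / ω - l) - (z ^ ω - (⌊z⌋₊ : ℝ) ^ ω) / ω := by ring
    rw [e2]
    refine (abs_sub _ _).trans ?_
    rw [abs_of_nonneg (a := ps (fun _ => 1) β ⌊z⌋₊ - (⌊z⌋₊ : ℝ) ^ ω / ω - l) (by linarith),
      abs_of_nonneg h10]
    linarith

variable (K : Type) [Field K] [NumberField K]

/-- the number of ideals of norm `n` -/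
def eK : ArithmeticFunction ℝ := ar (lbd_triv K)

theorem ek_card (N : ℕ) : ∑ n ∈ Ioc 0 N, eK K n = ((IN K (N : ℝ)).card : ℝ) := by
  have h1 := lbf_partial (K := K) (fun I => (lbd_triv K) I) (N : ℝ)
  rw [Nat.floor_natCast] at h1
  have h2 : ∑ I ∈ IN K (N : ℝ), (lbd_triv K) I = ((IN K (N : ℝ)).card : ℂ) := by
    rw [card_eq_sum_ones, Nat.cast_sum]
    refine sum_congr rfl fun I hI => ?_
    have h3 : I ≠ ⊥ := by
      unfold IN at hI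
      exact (mem_filter.1 hI).2
    show (if I = ⊥ then (0 : ℂ) else 1) = _
    rw [if_neg h3, Nat.cast_one]
  rw [h2] at h1
  have e : Ioc 0 N = Icc 1 N := by
    ext x
    simp only [mem_Ioc, mem_Icc]
    omega
  have h3 : ((∑ n ∈ Ioc 0 N, eK K n : ℝ) : ℂ) = ((IN K (N : ℝ)).card : ℂ) := by
    rw [← h1, Complex.ofReal_sum, e]
    exact sum_congr rfl fun n _ => ar_re triv_rl n
  exact_mod_cast h3

theorem ek_nonneg (n : ℕ) : 0 ≤ eK K n := by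
  show 0 ≤ (lbf (lbd_triv K) n).re
  unfold lbf
  rw [Complex.re_sum]
  refine sum_nonneg fun I _ => ?_
  show 0 ≤ (if I = ⊥ then (0 : ℂ) else 1).re
  split_ifs <;> simp

theorem sv_mono {f : ℕ → ℝ} {Q δ δ' : ℝ} (hQ : 0 ≤ Q) (h : Sv f Q δ) (hδ : δ' ≤ δ) : Sv f Q δ' := by
  intro n hn
  refine (h n hn).trans (mul_le_mul_of_nonneg_left ?_ hQ)
  exact Real.rpow_le_rpow_of_exponent_le (by exact_mod_cast hn) (by linarith)

/-- the main term -/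
theorem zk : ∃ κ C δ : ℝ, 0 < κ ∧ 1 ≤ C ∧ 0 < δ ∧ δ ≤ 1 / 4 ∧ ∀ β : ℝ, 1 - δ / 2 ≤ β → β < 1 →
    ∃ a₀ : ℝ, a₀ ≤ C - κ / (1 - β) ∧
      ∀ z : ℝ, 1 ≤ z → |Sz (tw β (eK K)) z - κ / (1 - β) * z ^ (1 - β) - a₀| ≤ C * z ^ (-(δ / 2)) := by
  obtain ⟨κ, C₀, δ₀, hκ, hC₀, hδ₀, hδ₀', h⟩ := cnt K
  obtain ⟨δ, hδ⟩ : ∃ δ : ℝ, δ = min δ₀ (1 / 4) := ⟨_, rfl⟩
  have hδ0 : 0 < δ := by rw [hδ]; exact lt_min hδ₀ (by norm_num)
  have hδ1 : δ ≤ 1 / 4 := by rw [hδ]; exact min_le_right _ _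
  have hδ2 : δ ≤ δ₀ := by rw [hδ]; exact min_le_left _ _
  obtain ⟨g, hg⟩ : ∃ g : ℕ → ℝ, ∀ n, g n = eK K n + (-κ) := ⟨_, fun _ => rfl⟩
  have hSv : Sv g C₀ δ := by
    refine sv_mono hC₀.le (fun n hn => ?_) hδ2
    have h1 : ∑ k ∈ Ioc 0 n, g k = ((IN K (n : ℝ)).card : ℝ) - κ * n := by
      rw [← ek_card, sum_congr rfl fun k _ => hg k, sum_add_distrib, sum_const, Nat.card_Ioc]
      simp
      ring
    rw [h1]
    exact h n (by exact_mod_cast hn)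
  obtain ⟨P, hP⟩ : ∃ P : ℝ, P = |g 1| + (2 + 2 / δ) * C₀ := ⟨_, rfl⟩
  have hP0 : 0 ≤ P := by rw [hP]; positivity
  refine ⟨κ, P + κ + 1 + 2 * (2 + 2 / δ) * C₀ + 4 * κ, δ, hκ, ?_, hδ0, hδ1, fun β hβ hβ1 => ?_⟩
  · have : 0 ≤ 2 * (2 + 2 / δ) * C₀ := by positivity
    linarith
  have hβ0 : 0 < β := by linarith
  obtain ⟨θ, hθ⟩ : ∃ θ : ℝ, θ = β + δ - 1 := ⟨_, rfl⟩
  have hθ2 : δ / 2 ≤ θ := by linarith
  have hθ0 : 0 < θ := by linarith
  have hθ1 : θ ≤ 1 := by linarith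
  have hq : β / θ ≤ 2 / δ := by
    rw [div_le_div_iff₀ hθ0 hδ0]
    nlinarith
  obtain ⟨zt, hzt, hz⟩ := zet hβ0 hβ1
  refine ⟨Lm g β + κ * zt, ?_, fun z hz1 => ?_⟩
  · have h1 := lm_abs hC₀.le hSv hβ0.le hθ hθ0
    have h2 : (2 + β / θ) * C₀ ≤ (2 + 2 / δ) * C₀ :=
      mul_le_mul_of_nonneg_right (by linarith) hC₀.le
    have h3 : Lm g β ≤ P := by
      rw [hP]
      linarith [le_abs_self (Lm g β)]
    have h4 : κ * zt ≤ κ - κ / (1 - β) := by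
      have h5 := mul_le_mul_of_nonneg_left hzt hκ.le
      have h6 : κ * (1 - 1 / (1 - β)) = κ - κ / (1 - β) := by ring
      linarith
    have h5 : 0 ≤ 2 * (2 + 2 / δ) * C₀ := by positivity
    linarith
  · have e1 : Sz (tw β (eK K)) z = ps g β ⌊z⌋₊ + κ * ps (fun _ => 1) β ⌊z⌋₊ := by
      rw [sz_tw, ← ps_smul, ← ps_add]
      congr 1
      funext n
      rw [hg]
      ring
    have h1 := lm_z hC₀.le hSv hβ0.le hθ hθ0 hθ1 hz1
    have h2 := hz z hz1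
    have e2 : Sz (tw β (eK K)) z - κ / (1 - β) * z ^ (1 - β) - (Lm g β + κ * zt) =
        (ps g β ⌊z⌋₊ - Lm g β) + κ * (ps (fun _ => 1) β ⌊z⌋₊ - z ^ (1 - β) / (1 - β) - zt) := by
      rw [e1]
      ring
    rw [e2]
    refine (abs_add_le _ _).trans ?_
    rw [abs_mul, abs_of_pos hκ]
    have h3 : z ^ (-θ) ≤ z ^ (-(δ / 2)) := Real.rpow_le_rpow_of_exponent_le hz1 (by linarith)
    have h4 : z ^ (-β) ≤ z ^ (-(δ / 2)) := Real.rpow_le_rpow_of_exponent_le hz1 (by linarith)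
    have h5 : 0 ≤ z ^ (-(δ / 2)) := Real.rpow_nonneg (by linarith) _
    calc |ps g β ⌊z⌋₊ - Lm g β| + κ * |ps (fun _ => 1) β ⌊z⌋₊ - z ^ (1 - β) / (1 - β) - zt|
        ≤ 2 * (2 + β / θ) * C₀ * z ^ (-θ) + κ * (4 * z ^ (-β)) :=
          add_le_add h1 (mul_le_mul_of_nonneg_left h2 hκ.le)
      _ ≤ 2 * (2 + 2 / δ) * C₀ * z ^ (-(δ / 2)) + κ * (4 * z ^ (-(δ / 2))) := by
          refine add_le_add (mul_le_mul ?_ h3 (Real.rpow_nonneg (by linarith) _) (by positivity)) ?_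
          · exact mul_le_mul_of_nonneg_right (by linarith) hC₀.le
          · exact mul_le_mul_of_nonneg_left (by linarith) hκ.le
      _ = (2 * (2 + 2 / δ) * C₀ + 4 * κ) * z ^ (-(δ / 2)) := by ring
      _ ≤ (P + κ + 1 + 2 * (2 + 2 / δ) * C₀ + 4 * κ) * z ^ (-(δ / 2)) :=
          mul_le_mul_of_nonneg_right (by linarith) h5

theorem log_rp {η : ℝ} (hη : 0 < η) {z : ℝ} (hz : 1 ≤ z) : 1 + Real.log z ≤ (1 + 1 / η) * z ^ η := by
  have h1 : Real.log z ≤ z ^ η / η := Real.log_le_rpow_div (by linarith) hη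
  have h2 : 1 ≤ z ^ η := Real.one_le_rpow hz hη.le
  have h3 : z ^ η / η = 1 / η * z ^ η := by ring
  rw [h3] at h1
  linarith

/-- the upper bound -/
theorem de {η : ℝ} (hη : 0 < η) : ∃ D : ℝ, 1 ≤ D ∧ ∀ β : ℝ, 1 - η / 2 ≤ β → β ≤ 1 → ∀ z : ℝ, 1 ≤ z →
    ps (eK K) β ⌊z⌋₊ ≤ D * z ^ η := by
  obtain ⟨C, hC, h⟩ := wsm_sum K
  refine ⟨C * (1 + 1 / (η / 2)), ?_, fun β hβ hβ1 z hz => ?_⟩
  · have h1 : 0 ≤ 1 / (η / 2) := by positivity
    nlinarith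
  have hz0 : 0 < z := by linarith
  have h1 : ps (eK K) β ⌊z⌋₊ ≤ z ^ (1 - β) * ∑ n ∈ Ioc 0 ⌊z⌋₊, eK K n * (1 / (n : ℝ)) := by
    unfold ps
    rw [mul_sum]
    refine sum_le_sum fun n hn => ?_
    obtain ⟨hn1, hn2⟩ := mem_Ioc.1 hn
    have hn0 : (1 : ℝ) ≤ n := by exact_mod_cast hn1
    have hnz : (n : ℝ) ≤ z := (Nat.cast_le.2 hn2).trans (Nat.floor_le hz0.le)
    have e1 : (n : ℝ) ^ (-β) = (n : ℝ) ^ (1 - β) * (1 / (n : ℝ)) := by
      rw [show -β = (1 - β) - 1 by ring, Real.rpow_sub (by linarith), Real.rpow_one]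
      ring
    rw [e1]
    have h2 : (n : ℝ) ^ (1 - β) ≤ z ^ (1 - β) := Real.rpow_le_rpow (by linarith) hnz (by linarith)
    have h3 := ek_nonneg K n
    calc eK K n * ((n : ℝ) ^ (1 - β) * (1 / (n : ℝ))) = (n : ℝ) ^ (1 - β) * (eK K n * (1 / (n : ℝ))) := by ring
      _ ≤ z ^ (1 - β) * (eK K n * (1 / (n : ℝ))) := mul_le_mul_of_nonneg_right h2 (by positivity)
  have h2 : ∑ n ∈ Ioc 0 ⌊z⌋₊, eK K n * (1 / (n : ℝ)) = ∑ I ∈ IN K z, 1 / (Ideal.absNorm I : ℝ) := by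
    have h3 := lbf_partial (K := K) (fun I => (((1 : ℝ) / Ideal.absNorm I : ℝ) : ℂ)) z
    have e : Ioc 0 ⌊z⌋₊ = Icc 1 ⌊z⌋₊ := by
      ext x
      simp only [mem_Ioc, mem_Icc]
      omega
    have h4 : ((∑ n ∈ Ioc 0 ⌊z⌋₊, eK K n * (1 / (n : ℝ)) : ℝ) : ℂ) =
        ((∑ I ∈ IN K z, 1 / (Ideal.absNorm I : ℝ) : ℝ) : ℂ) := by
      rw [Complex.ofReal_sum, Complex.ofReal_sum, e, ← h3]
      refine sum_congr rfl fun n hn => ?_
      have hn1 := (mem_Icc.1 hn).1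
      have h5 : ((eK K n : ℝ) : ℂ) = lbf (lbd_triv K) n := ar_re triv_rl n
      rw [Complex.ofReal_mul, h5]
      unfold lbf
      rw [sum_mul]
      refine sum_congr rfl fun I hI => ?_
      rw [lbf_mem] at hI
      have hI0 : I ≠ ⊥ := by
        intro h6
        rw [h6, Ideal.absNorm_bot] at hI
        omega
      show (if I = ⊥ then (0 : ℂ) else 1) * _ = _
      rw [if_neg hI0, one_mul]
      beta_reduce
      rw [hI]
    exact Complex.ofReal_injective h4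
  rw [h2] at h1
  have h3 := h z hz
  have h4 := log_rp (half_pos hη) hz
  have h5 : z ^ (1 - β) ≤ z ^ (η / 2) := Real.rpow_le_rpow_of_exponent_le hz (by linarith)
  have h6 : 0 ≤ ∑ I ∈ IN K z, 1 / (Ideal.absNorm I : ℝ) := sum_nonneg fun I _ => by positivity
  calc ps (eK K) β ⌊z⌋₊ ≤ z ^ (1 - β) * ∑ I ∈ IN K z, 1 / (Ideal.absNorm I : ℝ) := h1
    _ ≤ z ^ (η / 2) * (C * ((1 + 1 / (η / 2)) * z ^ (η / 2))) := by
        refine mul_le_mul h5 (h3.trans (mul_le_mul_of_nonneg_left h4 (by linarith))) h6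
          (Real.rpow_nonneg hz0.le _)
    _ = C * (1 + 1 / (η / 2)) * z ^ η := by
        have e1 : z ^ η = z ^ (η / 2) * z ^ (η / 2) := by
          rw [← Real.rpow_add hz0]
          congr 1
          ring
        rw [e1]
        ring

end H1.P2
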